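import Pool.Agent.Lib.MP_94aef8_gt.G.Grp

/-!
The action on the upper half space.
-/

open scoped ContDiff Topology
open Matrix Set Filter

namespace Pool.Agent.Lib.MP_94aef8_gt.Lor

open Hb

theorem rv_iota_pos {g : G5} (hg : IsG1 g) {p : E4} (hp : p ∈ UH) : 0 < rv g (iota p) 0 := by
  exact hg.sheet _ (by rw [bl_iota hp]; norm_num) (iota_pos hp)

theorem iota_act {g : G5} (hg : IsG1 g) {p : E4} (hp : p ∈ UH) :
    iota (act g p) = rv g (iota p) := by
  rw [act_eq g hp, iota_prj (by rw [hg.form, bl_iota hp]) (rv_iota_pos hg hp)]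

theorem act_up {g : G5} (hg : IsG1 g) {p : E4} (hp : p ∈ UH) : act g p ∈ UH := by
  rw [act_eq g hp]
  exact prj_up (rv_iota_pos hg hp)

theorem act_one : act 1 = id := by
  funext p
  by_cases hp : p ∈ UH
  · rw [act_eq 1 hp, rv_one, prj_iota hp, id]
  · rw [act_not 1 hp, id]

theorem act_mul {g h : G5} (hh : IsG1 h) : act (g * h) = act g ∘ act h := by
  funext p
  by_cases hp : p ∈ UH
  · rw [Function.comp_apply, act_eq _ hp, act_eq g (act_up hh hp), iota_act hh hp, rv_mul]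
  · rw [Function.comp_apply, act_not _ hp, act_not h hp, act_not g hp]

theorem act_height {g : G5} {p : E4} (hp : p ∈ UH) : act g p 3 = 1 / rv g (iota p) 0 := by
  rw [act_eq g hp, prj, mk4_3]

theorem act_aff (s : Fin 3 → ℤˣ) (v : Fin 3 → ℤ) {p : E4} (hp : p ∈ UH) :
    act (aff s v) p = mk4 (((s 0 : ℤ) : ℝ) * p 0 + v 0) (((s 1 : ℤ) : ℝ) * p 1 + v 1)
      (((s 2 : ℤ) : ℝ) * p 2 + v 2) (p 3) := by
  have h : p 3 ≠ 0 := ne_of_gt hp
  rw [act_eq _ hp]
  refine ext4 ?_ ?_ ?_ ?_ <;>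
    simp [prj, rv, aff, affM, iota, mulVec, dotProduct, Fin.sum_univ_five] <;> field_simp <;> ring

theorem act_inver_height {p : E4} (hp : p ∈ UH) :
    act inver p 3 = p 3 / (p 0 ^ 2 + p 1 ^ 2 + p 2 ^ 2 + p 3 ^ 2) := by
  rw [act_height hp]
  simp [rv, inver, invM, iota, mulVec, dotProduct, Fin.sum_univ_five]

theorem act_syM (u : Sy) {p : E4} (hp : p ∈ UH) : act (syM u) p = u.act p := by
  rw [syM, act_aff _ _ hp, Sy.act]
  simp

theorem act_tr5 (K : ℕ) (m : Fin 3 → ℤ) {p : E4} (hp : p ∈ UH) :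
    act (tr5 fun i => K * m i) p = trl K m p := by
  rw [tr5, act_aff _ _ hp, trl]
  simp

/-- Near a point of `UH` the map is `prj ∘ rv g ∘ iota`; use `cdAt_mk4`. -/
theorem act_smooth {g : G5} (hg : IsG1 g) : ContDiffOn ℝ ∞ (act g) UH := by
  intro p hp
  have h3 : p 3 ≠ 0 := ne_of_gt hp
  have h0 : rv g (iota p) 0 ≠ 0 := (rv_iota_pos hg hp).ne'
  have hi : ∀ j, ContDiffAt ℝ ∞ (fun q : E4 => iota q j) p := fun j => by
    have c := fun i => (cdCoord i).contDiffAt (x := p)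
    fin_cases j
    · exact contDiffAt_const.div (c 3) h3
    · exact (c 0).div (c 3) h3
    · exact (c 1).div (c 3) h3
    · exact (c 2).div (c 3) h3
    · exact (((((c 0).pow 2).add ((c 1).pow 2)).add ((c 2).pow 2)).add ((c 3).pow 2)).div (c 3) h3
  have hr : ∀ i, ContDiffAt ℝ ∞ (fun q : E4 => rv g (iota q) i) p := fun i =>
    ContDiffAt.sum (s := Finset.univ) (f := fun j (q : E4) => ((g.val i j : ℤ) : ℝ) * iota q j)
      fun j _ => contDiffAt_const.mul (hi j)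
  have h := cdAt_mk4 ((hr 1).div (hr 0) h0) ((hr 2).div (hr 0) h0) ((hr 3).div (hr 0) h0)
    ((contDiffAt_const (c := (1 : ℝ))).div (hr 0) h0)
  exact h.contDiffWithinAt.congr (fun q hq => act_eq g hq) (act_eq g hp)

end Pool.Agent.Lib.MP_94aef8_gt.Lor
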