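import Pool.Agent.Lib.MP_94aef8_gt.Mod

/-!
Coordinates of `mk4`, signs, quadratic forms of matrices and the Jacobian.
-/

open scoped ContDiff Topology
open Matrix Set Filter

namespace Pool.Agent.Lib.MP_94aef8_gt.Hb

@[simp] theorem mk4_0 (a b c d : ℝ) : mk4 a b c d 0 = a := rfl
@[simp] theorem mk4_1 (a b c d : ℝ) : mk4 a b c d 1 = b := rfl
@[simp] theorem mk4_2 (a b c d : ℝ) : mk4 a b c d 2 = c := rfl
@[simp] theorem mk4_3 (a b c d : ℝ) : mk4 a b c d 3 = d := rfl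

theorem ext4 {p q : E4} (h0 : p 0 = q 0) (h1 : p 1 = q 1) (h2 : p 2 = q 2) (h3 : p 3 = q 3) :
    p = q := by
  ext i
  fin_cases i
  exacts [h0, h1, h2, h3]

theorem sgn_mul_self (e : ℤˣ) : ((e : ℤ) : ℝ) * ((e : ℤ) : ℝ) = 1 := by
  rcases Int.units_eq_one_or e with rfl | rfl <;> simp

theorem sgn_sq (e : ℤˣ) : ((e : ℤ) : ℝ) ^ 2 = 1 := by rw [sq, sgn_mul_self]

theorem isOpen_UH : IsOpen UH := isOpen_lt continuous_const (by fun_prop)

theorem isOpen_UN : IsOpen UN := isOpen_lt (by unfold u01; fun_prop) continuous_const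

theorem cdCoord (i : Fin 4) : ContDiff ℝ ∞ fun p : E4 => p i := by fun_prop

theorem hfdCoord (i : Fin 4) (p : E4) :
    HasFDerivAt (fun p : E4 => p i) (EuclideanSpace.proj i : E4 →L[ℝ] ℝ) p :=
  (EuclideanSpace.proj i : E4 →L[ℝ] ℝ).hasFDerivAt

theorem cdAt_mk4 {X : Type} [NormedAddCommGroup X] [NormedSpace ℝ X] {a b c d : X → ℝ} {p : X}
    (ha : ContDiffAt ℝ ∞ a p) (hb : ContDiffAt ℝ ∞ b p) (hc : ContDiffAt ℝ ∞ c p)
    (hd : ContDiffAt ℝ ∞ d p) : ContDiffAt ℝ ∞ (fun x => mk4 (a x) (b x) (c x) (d x)) p := by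
  refine contDiffAt_euclidean.2 fun i => ?_
  fin_cases i
  exacts [ha, hb, hc, hd]

theorem cont_mk4 {X : Type} [TopologicalSpace X] {a b c d : X → ℝ} {p : X}
    (ha : ContinuousAt a p) (hb : ContinuousAt b p) (hc : ContinuousAt c p)
    (hd : ContinuousAt d p) : ContinuousAt (fun x => mk4 (a x) (b x) (c x) (d x)) p := by
  refine (PiLp.continuous_toLp 2 _).continuousAt.comp (continuousAt_pi.2 fun i => ?_)
  fin_cases i
  exacts [ha, hb, hc, hd]

/-- The quadratic form of a matrix. -/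
def qf (G : Mat) (v : Fin 4 → ℝ) : ℝ := v ⬝ᵥ G *ᵥ v

theorem qf_add (G H : Mat) (v : Fin 4 → ℝ) : qf (G + H) v = qf G v + qf H v := by
  simp [qf, add_mulVec]

theorem qf_sub (G H : Mat) (v : Fin 4 → ℝ) : qf (G - H) v = qf G v - qf H v := by
  simp [qf, sub_mulVec]

theorem qf_smul (c : ℝ) (G : Mat) (v : Fin 4 → ℝ) : qf (c • G) v = c * qf G v := by
  simp [qf, smul_mulVec]

theorem qf_one (v : Fin 4 → ℝ) : qf 1 v = v 0 ^ 2 + v 1 ^ 2 + v 2 ^ 2 + v 3 ^ 2 := by
  simp [qf, dotProduct, Fin.sum_univ_four]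
  ring

theorem qf_sq1 (a v : Fin 4 → ℝ) :
    qf (sq1 a) v = (a 0 * v 0 + a 1 * v 1 + a 2 * v 2 + a 3 * v 3) ^ 2 := by
  simp only [qf, sq1, dotProduct, mulVec, vecMulVec_apply, Fin.sum_univ_four]
  ring

theorem qf_sym2 (a b v : Fin 4 → ℝ) :
    qf (sym2 a b) v = 2 * ((a 0 * v 0 + a 1 * v 1 + a 2 * v 2 + a 3 * v 3) *
      (b 0 * v 0 + b 1 * v 1 + b 2 * v 2 + b 3 * v 3)) := by
  simp only [qf, sym2, dotProduct, mulVec, vecMulVec_apply, Fin.sum_univ_four, Matrix.add_apply]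
  ring

theorem qf_ee (i : Fin 4) (v : Fin 4 → ℝ) : qf (sq1 (ee i)) v = v i ^ 2 := by
  rw [qf_sq1]
  fin_cases i <;> simp [ee]

theorem qf_conj (J G : Mat) (v : Fin 4 → ℝ) : qf (Jᵀ * G * J) v = qf G (J *ᵥ v) := by
  simp only [qf, ← mulVec_mulVec]
  rw [dotProduct_mulVec, vecMul_transpose]

theorem sq1_symm (a : Fin 4 → ℝ) : (sq1 a)ᵀ = sq1 a := by simp [sq1]

theorem sym2_symm (a b : Fin 4 → ℝ) : (sym2 a b)ᵀ = sym2 a b := by simp [sym2, add_comm]

/-- Symmetric matrices with the same quadratic form are equal. -/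
theorem eq_of_qf {G H : Mat} (hG : Gᵀ = G) (hH : Hᵀ = H) (h : ∀ v, qf G v = qf H v) : G = H := by
  ext i j
  have h1 := h (Pi.single i 1 + Pi.single j 1)
  have h2 := h (Pi.single i 1)
  have h3 := h (Pi.single j 1)
  have h4 : G j i = G i j := congrFun (congrFun hG i) j
  have h5 : H j i = H i j := congrFun (congrFun hH i) j
  simp only [qf, mulVec_add, add_dotProduct, dotProduct_add, mulVec_single_one, single_dotProduct,
    one_mul, col_apply] at h1 h2 h3
  linarith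

theorem posDef_of_qf {G : Mat} (hG : Gᵀ = G) (h : ∀ v, v ≠ 0 → 0 < qf G v) : G.PosDef := by
  refine Matrix.PosDef.of_dotProduct_mulVec_pos ?_ fun v hv => by simpa [qf] using h v hv
  simpa [Matrix.IsHermitian, conjTranspose_eq_transpose_of_trivial] using hG

/-- The Jacobian matrix applied to a vector is the derivative. -/
theorem jac_mulVec {τ : E4 → E4} {p : E4} {L : E4 →L[ℝ] E4} (h : HasFDerivAt τ L p) (v : E4) :
    jac τ p *ᵥ v.ofLp = (L v).ofLp := by
  funext i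
  have h1 : ∀ a, pd a (fun y => τ y i) p = L (bas a) i := fun a => by
    have := ((hfdCoord i (τ p)).comp p h).fderiv
    simp only [pd]
    exact DFunLike.congr_fun this (bas a)
  have h2 : v = ∑ a, v a • bas a := by
    simpa [bas] using ((EuclideanSpace.basisFun (Fin 4) ℝ).sum_repr v).symm
  conv_rhs => rw [h2]
  simp [jac, mulVec, dotProduct, h1, mul_comm]

/-- The Jacobian of a map given by four functions, row by row. -/
theorem jac_mk4_mulVec {a b c d : E4 → ℝ} {p : E4} {a' b' c' d' : E4 →L[ℝ] ℝ}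
    (ha : HasFDerivAt a a' p) (hb : HasFDerivAt b b' p) (hc : HasFDerivAt c c' p)
    (hd : HasFDerivAt d d' p) (v : E4) :
    jac (fun x => mk4 (a x) (b x) (c x) (d x)) p *ᵥ v.ofLp = ![a' v, b' v, c' v, d' v] := by
  have h2 : v = ∑ k, v k • bas k := by
    simpa [bas] using ((EuclideanSpace.basisFun (Fin 4) ℝ).sum_repr v).symm
  have key : ∀ {f : E4 → ℝ} {f' : E4 →L[ℝ] ℝ}, HasFDerivAt f f' p →
      ∑ k, pd k f p * v k = f' v := fun {f f'} hf => by
    conv_rhs => rw [h2]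
    simp [pd, hf.fderiv, mul_comm]
  funext i
  fin_cases i
  exacts [key ha, key hb, key hc, key hd]

/-- A pull back identity is tested on the quadratic forms. -/
theorem pull_eq_of_qf {τ : E4 → E4} {G : Tn} {H : Mat} {p : E4} (hG : (G (τ p))ᵀ = G (τ p))
    (hH : Hᵀ = H) (h : ∀ v : E4, qf (G (τ p)) (jac τ p *ᵥ v.ofLp) = qf H v.ofLp) :
    pull τ G p = H := by
  refine eq_of_qf ?_ hH fun v => ?_
  · simp [pull, Matrix.transpose_mul, hG, Matrix.mul_assoc]
  · rw [pull, qf_conj]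
    exact h (WithLp.toLp 2 v)

theorem jac_congr {τ σ : E4 → E4} {p : E4} (h : τ =ᶠ[𝓝 p] σ) : jac τ p = jac σ p := by
  ext i a
  have : (fun y => τ y i) =ᶠ[𝓝 p] fun y => σ y i := h.mono fun y hy => by simp only [hy]
  simp only [jac, Matrix.of_apply, pd, this.fderiv_eq]

theorem mat_ext_mulVec {A B : Mat} (h : ∀ v : E4, A *ᵥ v.ofLp = B *ᵥ v.ofLp) : A = B := by
  ext i j
  have := congrFun (h (WithLp.toLp 2 (Pi.single j 1))) i
  simpa using this

theorem jac_comp {τ σ : E4 → E4} {p : E4} (hτ : DifferentiableAt ℝ τ (σ p))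
    (hσ : DifferentiableAt ℝ σ p) : jac (τ ∘ σ) p = jac τ (σ p) * jac σ p := by
  refine mat_ext_mulVec fun v => ?_
  rw [← mulVec_mulVec, jac_mulVec hσ.hasFDerivAt, jac_mulVec hτ.hasFDerivAt,
    jac_mulVec (hτ.hasFDerivAt.comp p hσ.hasFDerivAt)]
  rfl

theorem pull_comp {τ σ : E4 → E4} {p : E4} (hτ : DifferentiableAt ℝ τ (σ p))
    (hσ : DifferentiableAt ℝ σ p) (G : Tn) : pull (τ ∘ σ) G p = pull σ (pull τ G) p := by
  simp only [pull, jac_comp hτ hσ, Matrix.transpose_mul, Matrix.mul_assoc, Function.comp_apply]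

theorem jac_id (p : E4) : jac id p = 1 := by
  refine mat_ext_mulVec fun v => ?_
  rw [jac_mulVec (hasFDerivAt_id p)]
  simp

theorem jac_add_const (w p : E4) : jac (fun x => x + w) p = 1 := by
  refine mat_ext_mulVec fun v => ?_
  have h : HasFDerivAt (fun x : E4 => x + w) (ContinuousLinearMap.id ℝ E4) p :=
    (hasFDerivAt_id p).add_const w
  rw [jac_mulVec h]
  simp

end Pool.Agent.Lib.MP_94aef8_gt.Hb
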