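import Pool.Agent.Lib.MP_94aef8_gt.G.Lor

/-!
Connectedness of the nerve of the slabs.
-/

open scoped ContDiff Topology
open Matrix Set Filter

namespace Pool.Agent.Lib.MP_94aef8_gt.Lor

open Hb

/-- The nerve of the slabs is connected. Fix `c`; let `O a` be the open set of the `p ∈ UH` with
`1/3 < τ p 3` for some `τ ∈ Tr c a`. The `O a` cover `UH` (`red`) and are not empty (`ne`, `inv`,
the point `mk4 0 0 0 1`). `UH` is convex, so preconnected. Let `V` be the union of the `O a` over the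
`a` reached from `c` and `W` the union over the others. If `W` is not empty, `V` is not empty
(`a = c`) and there is `p ∈ O a ∩ O b` with `a` reached, `b` not; the transition from `a` to `b`
maps `q = τ p` to `q' = τ' p`, both heights exceed `1/3`, the product is at most one (`high`, as
`a ≠ b`), so both are less than 3. -/
theorem conn_of {C : Type} (Tr : C → C → Set (E4 → E4))
    (comp : ∀ {a b c τ τ'}, τ ∈ Tr a b → τ' ∈ Tr b c → τ' ∘ τ ∈ Tr a c)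
    (inv : ∀ {a b τ}, τ ∈ Tr a b → ∃ τ' ∈ Tr b a, ∀ p ∈ UH, τ' (τ p) = p ∧ τ (τ' p) = p)
    (up : ∀ {a b τ}, τ ∈ Tr a b → MapsTo τ UH UH)
    (cont : ∀ {a b τ}, τ ∈ Tr a b → ContinuousOn τ UH)
    (ne : ∀ a b, (Tr a b).Nonempty)
    (high : ∀ {a b τ}, τ ∈ Tr a b → ∀ p ∈ UH, 1 < p 3 * τ p 3 → a = b)
    (red : ∀ c, ∀ p ∈ UH, ∃ c', ∃ τ ∈ Tr c c', 3 / 8 ≤ τ p 3) (c c' : C) :
    Relation.ReflTransGen (fun a b => ∃ τ ∈ Tr a b, ∃ p : E4,
      1 / 3 < p 3 ∧ p 3 < 3 ∧ 1 / 3 < τ p 3 ∧ τ p 3 < 3) c c' := by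
  by_contra hn
  have h3 : Continuous fun p : E4 => p 3 := by fun_prop
  have hU : IsOpen UH := isOpen_lt continuous_const h3
  have hconv : Convex ℝ UH :=
    convex_halfSpace_gt (f := fun p : E4 => p 3) ⟨fun _ _ => rfl, fun _ _ => rfl⟩ 0
  let O : C → Set E4 := fun a => ⋃ τ ∈ Tr c a, UH ∩ τ ⁻¹' {q | 1 / 3 < q 3}
  have hO : ∀ a, IsOpen (O a) := fun a => isOpen_biUnion fun τ hτ =>
    (cont hτ).isOpen_inter_preimage hU (isOpen_lt continuous_const h3)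
  have hne : ∀ a, ∃ p ∈ UH, p ∈ O a := fun a => by
    obtain ⟨τ, hτ⟩ := ne c a
    obtain ⟨τ', hτ', e⟩ := inv hτ
    have h1 : mk4 0 0 0 1 ∈ UH := by simp [UH]
    refine ⟨_, up hτ' h1, mem_biUnion hτ ⟨up hτ' h1, ?_⟩⟩
    rw [mem_preimage, (e _ h1).2]
    norm_num
  let S : Set C := {a | Relation.ReflTransGen (fun a b => ∃ τ ∈ Tr a b, ∃ p : E4,
    1 / 3 < p 3 ∧ p 3 < 3 ∧ 1 / 3 < τ p 3 ∧ τ p 3 < 3) c a}
  obtain ⟨p, hp, h1, h2⟩ := hconv.isPreconnected (⋃ a ∈ S, O a) (⋃ a ∈ Sᶜ, O a)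
    (isOpen_biUnion fun a _ => hO a) (isOpen_biUnion fun a _ => hO a) (fun p hp => by
      obtain ⟨a, τ, hτ, h⟩ := red c p hp
      have h4 : p ∈ O a := mem_biUnion hτ ⟨hp, lt_of_lt_of_le (by norm_num) h⟩
      by_cases ha : a ∈ S
      exacts [Or.inl (mem_biUnion ha h4), Or.inr (mem_biUnion ha h4)])
    ((hne c).imp fun p h => ⟨h.1, mem_biUnion Relation.ReflTransGen.refl h.2⟩)
    ((hne c').imp fun p h => ⟨h.1, mem_biUnion hn h.2⟩)
  obtain ⟨a, ha, h1⟩ := mem_iUnion₂.1 h1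
  obtain ⟨b, hb, h2⟩ := mem_iUnion₂.1 h2
  obtain ⟨τ, hτ, -, h1⟩ := mem_iUnion₂.1 h1
  obtain ⟨τ', hτ', -, h2⟩ := mem_iUnion₂.1 h2
  obtain ⟨σ, hσ, e⟩ := inv hτ
  have h4 : (τ' ∘ σ) (τ p) = τ' p := congrArg τ' (e p hp).1
  have h5 : τ p 3 * τ' p 3 ≤ 1 := by
    by_contra h
    have h6 := high (comp hσ hτ') _ (up hτ hp) (by rw [h4]; exact lt_of_not_ge h)
    exact hb (h6 ▸ ha)
  replace h1 : 1 / 3 < τ p 3 := h1
  replace h2 : 1 / 3 < τ' p 3 := h2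
  refine hb (Relation.ReflTransGen.tail ha ⟨_, comp hσ hτ', τ p, h1, ?_, ?_, ?_⟩)
  · nlinarith
  · rwa [h4]
  · rw [h4]
    nlinarith

end Pool.Agent.Lib.MP_94aef8_gt.Lor
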