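import Pool.Agent.Lib.MP_94aef8_gt.G.Stab

/-!
Representatives of the cusps.
-/

open scoped ContDiff Topology
open Matrix Set Filter

namespace Pool.Agent.Lib.MP_94aef8_gt.Lor

open Hb

theorem cusp_congr (κ : G5) {g g' : G5} (h : zv g nu = zv g' nu) :
    zv (κ * g) nu = zv (κ * g') nu := by
  rw [zv_mul, zv_mul, h]

/-- Two elements of `G₁` are related if their cusps differ by an element of a subgroup. -/
def cuspS (P : G5 → Prop) (h1 : P 1) (hm : ∀ {g h}, P g → P h → P (g * h))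
    (hi : ∀ {g}, P g → P g⁻¹) : Setoid {g : G5 // IsG1 g} where
  r g g' := ∃ κ, P κ ∧ zv (κ * g.1) nu = zv g'.1 nu
  iseqv := ⟨fun g => ⟨1, h1, by rw [one_mul]⟩,
    fun ⟨κ, hκ, h⟩ => ⟨κ⁻¹, hi hκ, by rw [← cusp_congr κ⁻¹ h, inv_mul_cancel_left]⟩,
    fun ⟨κ, hκ, h⟩ ⟨κ', hκ', h'⟩ => ⟨κ' * κ, hm hκ' hκ, by rw [mul_assoc, cusp_congr κ' h, h']⟩⟩

/-- The relation for `G_K`. -/
def cuspK (K : ℕ) : Setoid {g : G5 // IsG1 g} := cuspS (IsGK K) (isGK_one K) IsGK.mul IsGK.inv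

/-- The relation for `G₂`. -/
def cusp2 : Setoid {g : G5 // IsG1 g} := cuspS IsG2 isG2_one IsG2.mul IsG2.inv

theorem cusp_finite {K : ℕ} (h0 : 0 < K) : Finite (Quotient (cuspK K)) := by
  have : NeZero K := ⟨h0.ne'⟩
  refine Finite.of_injective
    (fun (c : Quotient (cuspK K)) (i j : Fin 5) => ((c.out.1.val i j : ℤ) : ZMod K)) fun c c' h => ?_
  refine Quotient.out_equiv_out.1 ⟨c'.out.1 * c.out.1⁻¹, ⟨c'.out.2.mul c.out.2.inv,
    cong_of_sub fun i j => ?_⟩, by rw [inv_mul_cancel_right]⟩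
  exact (ZMod.intCast_eq_intCast_iff_dvd_sub _ _ K).1 (congrFun (congrFun h i) j)

/-- Compatible representatives of the cusps. Let `G` be the subtype of `G₁`, `g ~ g'` if
`zv (κ * g) nu = zv g' nu` for some `κ` in `G_K`, `g ≈ g'` the same with `γ` in `G₂` (both are
equivalence relations, `~` implies `≈`). `C` is the quotient by `~`; it is finite because
`g ↦ g mod K` has finite range and equal reductions give `g' * g⁻¹ ∈ G_K` (`cong_of_sub`). For
`c` let `b c` be the `Quotient.out` of the `≈` class of `c.out`, choose `γ c ∈ G₂` with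
`zv (γ c * b c) nu = zv c.out nu`, and put `r c = γ c * b c`. For the last statement let `c'` be the
class of `γ * r c`; then `b c' = b c`, and `(κ * r c')⁻¹ * (γ * r c)` is a conjugate of an element
of `G₂` by `(b c)⁻¹` and fixes `nu`: use `stab_aff` and `aff_of_isG2`. -/
theorem exists_reps {K : ℕ} (h0 : 0 < K) (h4 : 4 ∣ K) :
    ∃ (C : Type) (_ : Finite C) (_ : Nonempty C) (r : C → G5), (∀ c, IsG1 (r c)) ∧
      (∀ g, IsG1 g → ∃ c κ, IsGK K κ ∧ zv g nu = zv (κ * r c) nu) ∧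
      (∀ c c' κ, IsGK K κ → zv (κ * r c) nu = zv (r c') nu → c = c') ∧
      ∀ γ, IsG2 γ → ∀ c, ∃ c' κ, ∃ u : Sy, IsGK K κ ∧ γ * r c = κ * r c' * syM u := by
  have hγ : ∀ c : Quotient (cuspK K), ∃ γ, IsG2 γ ∧
      zv (γ * (Quotient.mk cusp2 c.out).out.1) nu = zv c.out.1 nu := fun c =>
    Quotient.mk_out (s := cusp2) c.out
  choose γ hγ hz using hγ
  have h2 : ∀ g, IsG1 g → ∃ c κ, IsGK K κ ∧
      zv g nu = zv (κ * (γ c * (Quotient.mk cusp2 c.out).out.1)) nu := by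
    intro g hg
    obtain ⟨κ, hκ, h⟩ := Quotient.mk_out (s := cuspK K) ⟨g, hg⟩
    exact ⟨_, κ, hκ, h.symm.trans (cusp_congr κ (hz _)).symm⟩
  refine ⟨Quotient (cuspK K), cusp_finite h0, ⟨Quotient.mk _ ⟨1, isG1_one⟩⟩,
    fun c => γ c * (Quotient.mk cusp2 c.out).out.1,
    fun c => (hγ c).g1.mul (Quotient.mk cusp2 c.out).out.2, h2, fun c c' κ hκ h => ?_,
    fun δ hδ c => ?_⟩
  · exact Quotient.out_equiv_out.1 ⟨κ, hκ, (cusp_congr κ (hz c)).symm.trans (h.trans (hz c'))⟩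
  · obtain ⟨c', κ, hκ, h⟩ := h2 _ (hδ.g1.mul ((hγ c).g1.mul (Quotient.mk cusp2 c.out).out.2))
    have hb : Quotient.mk cusp2 c.out = Quotient.mk cusp2 c'.out := by
      refine Quotient.sound ⟨κ⁻¹ * δ, (hκ.isG2 h4).inv.mul hδ, ?_⟩
      rw [← cusp_congr _ (hz c), mul_assoc, cusp_congr _ h, inv_mul_cancel_left, hz]
    have hw := (((hγ c').inv.mul ((hκ.isG2 h4).inv.mul (hδ.mul (hγ c)))).conj
      (Quotient.mk cusp2 c.out).out.2.inv)
    have he : δ * (γ c * (Quotient.mk cusp2 c.out).out.1) =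
        κ * (γ c' * (Quotient.mk cusp2 c'.out).out.1) * ((Quotient.mk cusp2 c.out).out.1⁻¹ *
          ((γ c')⁻¹ * (κ⁻¹ * (δ * γ c))) * (Quotient.mk cusp2 c.out).out.1⁻¹⁻¹) := by
      rw [← hb]
      group
    generalize (Quotient.mk cusp2 c.out).out.1⁻¹ * ((γ c')⁻¹ * (κ⁻¹ * (δ * γ c))) *
      (Quotient.mk cusp2 c.out).out.1⁻¹⁻¹ = w at hw he
    have hn : zv w nu = nu := by
      have h3 := cusp_congr (κ * (γ c' * (Quotient.mk cusp2 c'.out).out.1))⁻¹ h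
      rwa [he, inv_mul_cancel_left, inv_mul_cancel, zv_one] at h3
    obtain ⟨s, v, rfl⟩ := stab_aff hw.g1 hn
    obtain ⟨u, hu⟩ := aff_of_isG2 hw
    exact ⟨c', κ, u, hκ, hu ▸ he⟩

end Pool.Agent.Lib.MP_94aef8_gt.Lor
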