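import Pool.Agent.Lib.MP_94aef8_gt.G.Prop

/-!
The congruence subgroup acts freely.
-/

open scoped ContDiff Topology
open Matrix Set Filter

namespace Pool.Agent.Lib.MP_94aef8_gt.Lor

open Hb

/-- An orthogonal matrix has entries on the diagonal of absolute value at most one. -/
theorem trace_orth {O : Matrix (Fin 5) (Fin 5) ℝ} (h : Oᵀ * O = 1) : |O.trace| ≤ 5 := by
  have h1 : ∀ i, |O i i| ≤ 1 := fun i => by
    have h2 := congrFun (congrFun h i) i
    rw [mul_apply, one_apply_eq] at h2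
    refine abs_le_one_iff_mul_self_le_one.2 (h2 ▸ ?_)
    exact Finset.single_le_sum (f := fun k => Oᵀ i k * O k i) (fun k _ => mul_self_nonneg _)
      (Finset.mem_univ i)
  refine (Finset.abs_sum_le_sum_abs _ _).trans ((Finset.sum_le_sum fun i _ => h1 i).trans ?_)
  simp

/-- `S = 2 - O - Oᵀ = (O - 1)ᵀ (O - 1)` is symmetric, `tr (S S) = ∑ S_ij² = 30 - 8 tr O + 2 tr O²`
lies in `[0, 80]`; if it vanishes then `S = 0` and `O = 1`. -/
theorem orth_aux {O : Matrix (Fin 5) (Fin 5) ℝ} (h : Oᵀ * O = 1) :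
    0 ≤ ((2 - O - Oᵀ) * (2 - O - Oᵀ)).trace ∧ ((2 - O - Oᵀ) * (2 - O - Oᵀ)).trace ≤ 80 ∧
      (((2 - O - Oᵀ) * (2 - O - Oᵀ)).trace = 0 → O = 1) := by
  have h' : O * Oᵀ = 1 := mul_eq_one_comm.1 h
  have h1 : (2 - O - Oᵀ)ᴴ = 2 - O - Oᵀ := by
    rw [conjTranspose_eq_transpose_of_trivial, transpose_sub, transpose_sub, transpose_transpose,
      transpose_ofNat, sub_right_comm]
  have h2 : (O - 1)ᴴ * (O - 1) = 2 - O - Oᵀ := by
    rw [conjTranspose_eq_transpose_of_trivial, transpose_sub, transpose_one,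
      ← one_add_one_eq_two]
    nth_rw 3 [← h]
    noncomm_ring
  have h3 : (2 - O - Oᵀ) * (2 - O - Oᵀ) = (4 : ℝ) • 1 - (4 : ℝ) • O - (4 : ℝ) • Oᵀ + O * O +
      (O * O)ᵀ + Oᵀ * O + O * Oᵀ := by
    rw [transpose_mul, ← one_add_one_eq_two]
    simp only [sub_mul, mul_sub, add_mul, mul_add, Matrix.one_mul, Matrix.mul_one]
    module
  refine ⟨?_, ?_, fun h0 => ?_⟩
  · nth_rw 1 [← h1]
    exact (posSemidef_conjTranspose_mul_self _).trace_nonneg
  · have h4 := abs_le.1 (trace_orth h)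
    have h5 := abs_le.1 (trace_orth (O := O * O) (by
      rw [transpose_mul, Matrix.mul_assoc, ← Matrix.mul_assoc Oᵀ O, h, Matrix.one_mul, h]))
    rw [h3, h, h']
    simp only [trace_add, trace_sub, trace_smul, trace_transpose, trace_one, Fintype.card_fin,
      smul_eq_mul, Nat.cast_ofNat]
    linarith [h4.1, h5.2]
  · nth_rw 1 [← h1] at h0
    rw [trace_conjTranspose_mul_self_eq_zero_iff, ← h2, conjTranspose_mul_self_eq_zero] at h0
    exact sub_eq_zero.1 h0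

/-- `k = 1 + K W`, `k⁻¹ = 1 + K W'`, `W + W' + K W W' = 0`, so `2 - k - k⁻¹ = K² W W'`. -/
theorem cong_trace {K : ℤ} {k : G5} (hk : Cong K k) :
    K ^ 4 ∣ ((2 - k.val - (k⁻¹).val) * (2 - k.val - (k⁻¹).val)).trace := by
  obtain ⟨W, hW⟩ := cong_iff.1 hk
  have h1 : 2 - k.val - (k⁻¹).val = -((k⁻¹).val * (k.val - 1) * (k.val - 1)) := by
    rw [← one_add_one_eq_two]
    simp only [Matrix.mul_sub, Matrix.sub_mul, Matrix.one_mul, Matrix.mul_one, k.inv_mul]
    abel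
  have h2 : k.val - 1 = K • W := by rw [hW, add_sub_cancel_left]
  rw [h1, h2]
  simp only [Matrix.mul_smul, Matrix.smul_mul, neg_mul_neg, trace_smul, smul_eq_mul]
  exact ⟨_, by rw [← mul_assoc, ← mul_assoc, ← mul_assoc]; congr 1; ring⟩

/-- A matrix that preserves the sum of squares is orthogonal. -/
theorem free_orth {O : Matrix (Fin 5) (Fin 5) ℝ} (h : ∀ v, (O *ᵥ v) ⬝ᵥ (O *ᵥ v) = v ⬝ᵥ v) :
    Oᵀ * O = 1 := by
  ext i j
  have h1 := h (Pi.single i 1 + Pi.single j 1)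
  rw [mulVec_add, add_dotProduct, dotProduct_add, dotProduct_add, add_dotProduct, dotProduct_add,
    dotProduct_add, h, h, dotProduct_comm (O *ᵥ Pi.single j 1),
    dotProduct_comm (Pi.single j 1) (Pi.single i 1)] at h1
  have h2 : (O *ᵥ Pi.single i 1) ⬝ᵥ (O *ᵥ Pi.single j 1) =
      Pi.single i 1 ⬝ᵥ (Pi.single j 1 : Fin 5 → ℝ) := by linarith
  rw [mulVec_single_one, mulVec_single_one, single_one_dotProduct, Pi.single_apply] at h2
  exact h2

/-- With `F = fr p` and `k` the real matrix, `O = F k F⁻¹` preserves `v ⬝ᵥ v` (`maj_act`,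
`maj_eq`), so `Oᵀ O = 1` and `Oᵀ = F k⁻¹ F⁻¹`. The trace in `orth_aux` is the integer of
`cong_trace`, divisible by `K⁴ ≥ 256 > 80`, hence zero. -/
theorem free {K : ℕ} (hK : 4 ≤ K) {k : G5} (hk : IsGK K k) {p : E4} (hp : p ∈ UH)
    (h : act k p = p) : k = 1 := by
  have hF := (fr_det hp).isUnit
  obtain ⟨φ, hφ⟩ : ∃ φ : Matrix (Fin 5) (Fin 5) ℤ →+* Matrix (Fin 5) (Fin 5) ℝ,
      φ = (Int.castRingHom ℝ).mapMatrix := ⟨_, rfl⟩
  have h1 : (fr p * φ k.val * (fr p)⁻¹)ᵀ * (fr p * φ k.val * (fr p)⁻¹) = 1 := free_orth fun v => by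
    have h2 := maj_act hk.g1 hp ((fr p)⁻¹ *ᵥ v)
    rw [h, maj_eq hp, maj_eq hp, rv, mulVec_mulVec, mulVec_mulVec, mulVec_mulVec,
      mul_nonsing_inv _ hF, one_mulVec] at h2
    rw [hφ]
    exact h2
  have h2 : (fr p * φ k.val * (fr p)⁻¹)ᵀ = fr p * φ (k⁻¹).val * (fr p)⁻¹ := by
    refine left_inv_eq_right_inv h1 ?_
    rw [Matrix.mul_assoc, Matrix.mul_assoc (fr p) (φ (k⁻¹).val), nonsing_inv_mul_cancel_left _ _ hF,
      Matrix.mul_assoc, ← Matrix.mul_assoc (φ _), ← map_mul, k.mul_inv, map_one, Matrix.one_mul,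
      mul_nonsing_inv _ hF]
  have h3 : 2 - fr p * φ k.val * (fr p)⁻¹ - fr p * φ (k⁻¹).val * (fr p)⁻¹ =
      fr p * φ (2 - k.val - (k⁻¹).val) * (fr p)⁻¹ := by
    rw [map_sub, map_sub, map_ofNat, ← one_add_one_eq_two]
    simp only [Matrix.mul_sub, Matrix.sub_mul, Matrix.mul_add, Matrix.add_mul, Matrix.mul_one,
      mul_nonsing_inv _ hF]
  have h4 := orth_aux h1
  have h0 : ∀ X : Matrix (Fin 5) (Fin 5) ℝ,
      (fr p * X * (fr p)⁻¹ * (fr p * X * (fr p)⁻¹)).trace = (X * X).trace := fun X => by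
    rw [← Matrix.mul_assoc, ← Matrix.mul_assoc, nonsing_inv_mul_cancel_right _ _ hF,
      trace_mul_comm, Matrix.mul_assoc (fr p), nonsing_inv_mul_cancel_left _ _ hF]
  rw [h2, h3, h0, ← map_mul] at h4
  have h5 : ∀ M, (φ M).trace = (M.trace : ℤ) := fun M => by simp [hφ, trace]
  rw [h5] at h4
  have h6 : (4 : ℤ) ^ 4 ≤ (K : ℤ) ^ 4 := pow_le_pow_left₀ (by norm_num) (by exact_mod_cast hK) 4
  have h7 := Int.eq_zero_of_dvd_of_nonneg_of_lt (by exact_mod_cast h4.1)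
    (lt_of_le_of_lt (b := 80) (by exact_mod_cast h4.2.1) (by linarith)) (cong_trace hk.cong)
  have h8 := h4.2.2 (by exact_mod_cast h7)
  have h9 : φ k.val = φ 1 := by
    have h10 := congrArg (fun X => (fr p)⁻¹ * (X * fr p)) h8
    simp only [nonsing_inv_mul_cancel_right _ _ hF, nonsing_inv_mul_cancel_left _ _ hF,
      Matrix.one_mul, nonsing_inv_mul _ hF] at h10
    rw [map_one, h10]
  rw [hφ] at h9
  exact Units.ext (Matrix.map_injective Int.cast_injective h9)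

end Pool.Agent.Lib.MP_94aef8_gt.Lor
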