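import Pool.Agent.Lib.MP_94aef8_gt.G.Lor

/-!
The groups `G₁` and `G_K`.
-/

open scoped ContDiff Topology
open Matrix Set Filter

namespace Pool.Agent.Lib.MP_94aef8_gt.Lor

open Hb

theorem grp_zv_single (g : G5) (j i : Fin 5) : zv g (Pi.single j 1) i = g.val i j := by
  simp [zv]

theorem grp_zv_add (g : G5) (u v : Fin 5 → ℤ) : zv g (u + v) = zv g u + zv g v :=
  Matrix.mulVec_add _ _ _

theorem grp_zv_smul (g : G5) (s : ℤ) (v : Fin 5 → ℤ) : zv g (s • v) = s • zv g v :=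
  Matrix.mulVec_smul _ _ _

theorem grp_rv_neg (g : G5) (v : Fin 5 → ℝ) : rv g (-v) = -rv g v :=
  Matrix.mulVec_neg _ _

theorem grp_rv_inv (g : G5) (v : Fin 5 → ℝ) : rv g (rv g⁻¹ v) = v := by
  rw [← rv_mul, mul_inv_cancel, rv_one]

/-- `Col N s g j` says `g e_j = s e_j + N w` for an integral vector `w`. -/
theorem col_iff {N s : ℤ} {g : G5} {j : Fin 5} :
    Col N s g j ↔ ∃ w : Fin 5 → ℤ, zv g (Pi.single j 1) = s • Pi.single j 1 + N • w := by
  constructor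
  · intro h
    choose w hw using h
    refine ⟨w, funext fun i => ?_⟩
    rw [grp_zv_single, eq_add_of_sub_eq' (hw i)]
    simp [Pi.single_apply]
  · rintro ⟨w, hw⟩ i
    refine ⟨w i, ?_⟩
    rw [← grp_zv_single, hw]
    simp [Pi.single_apply]

theorem col_one (N : ℤ) (j : Fin 5) : Col N 1 1 j := by
  exact col_iff.2 ⟨0, by rw [zv_one, one_smul, smul_zero, add_zero]⟩

/-- `g h e_j = g (s' e_j + N w') = s' (s e_j + N w) + N g w'`. -/
theorem Col.mul {N s s' : ℤ} {g h : G5} {j : Fin 5} (hg : Col N s g j) (hh : Col N s' h j) :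
    Col N (s * s') (g * h) j := by
  obtain ⟨w, hw⟩ := col_iff.1 hg
  obtain ⟨w', hw'⟩ := col_iff.1 hh
  refine col_iff.2 ⟨s' • w + zv g w', ?_⟩
  rw [zv_mul, hw', grp_zv_add, grp_zv_smul, grp_zv_smul, hw]
  module

/-- Apply `g⁻¹` to `g e_j = s e_j + N w` and multiply by `s`. -/
theorem Col.inv {N s : ℤ} {g : G5} {j : Fin 5} (hs : s * s = 1) (hg : Col N s g j) :
    Col N s g⁻¹ j := by
  obtain ⟨w, hw⟩ := col_iff.1 hg
  have h1 := congrArg (zv g⁻¹) hw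
  rw [← zv_mul, inv_mul_cancel, zv_one, grp_zv_add, grp_zv_smul, grp_zv_smul] at h1
  refine col_iff.2 ⟨-(s • zv g⁻¹ w), ?_⟩
  have h2 := congrArg (s • ·) h1
  simp only [smul_add, smul_smul, hs, one_smul] at h2
  rw [h2]
  module

theorem Col.of_dvd {N N' s : ℤ} {g : G5} {j : Fin 5} (h : N' ∣ N) (hg : Col N s g j) :
    Col N' s g j := by
  exact fun i => h.trans (hg i)

theorem isG1_one : IsG1 1 := by
  refine ⟨fun u v => by rw [rv_one, rv_one], fun u _ h => by rwa [rv_one], col_one _ _,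
    col_one _ _, col_one _ _⟩

theorem IsG1.mul {g h : G5} (hg : IsG1 g) (hh : IsG1 h) : IsG1 (g * h) := by
  refine ⟨fun u v => by rw [rv_mul, rv_mul, hg.form, hh.form], fun u h1 h2 => ?_,
    by simpa using hg.c1.mul hh.c1, by simpa using hg.c2.mul hh.c2,
    by simpa using hg.c3.mul hh.c3⟩
  rw [rv_mul]
  exact hg.sheet _ (by rwa [hh.form]) (hh.sheet u h1 h2)

/-- Sheet: for `u` timelike with `0 < u 0` put `w = rv g⁻¹ u`; `bl w w < 0` forces `w 0 ≠ 0`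
(`bl w w = 2 |b|² - 2 a c`); if `w 0 < 0` apply `hg.sheet` to `-w`. -/
theorem IsG1.inv {g : G5} (hg : IsG1 g) : IsG1 g⁻¹ := by
  have hf : ∀ u v, bl (rv g⁻¹ u) (rv g⁻¹ v) = bl u v := fun u v => by
    rw [← hg.form, grp_rv_inv, grp_rv_inv]
  refine ⟨hf, fun u h1 h2 => ?_, hg.c1.inv rfl, hg.c2.inv rfl, hg.c3.inv rfl⟩
  have h3 : bl (rv g⁻¹ u) (rv g⁻¹ u) < 0 := by rwa [hf]
  rcases lt_trichotomy (rv g⁻¹ u 0) 0 with h | h | h
  · have h4 := hg.sheet (-rv g⁻¹ u) (by simpa [bl] using h3) (by simpa using h)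
    rw [grp_rv_neg, grp_rv_inv, Pi.neg_apply] at h4
    linarith
  · rw [bl, h] at h3
    nlinarith [mul_self_nonneg (rv g⁻¹ u 1), mul_self_nonneg (rv g⁻¹ u 2),
      mul_self_nonneg (rv g⁻¹ u 3)]
  · exact h

/-- `Cong N g` says `g = 1 + N • W` as matrices. -/
theorem cong_iff {N : ℤ} {g : G5} :
    Cong N g ↔ ∃ W : Matrix (Fin 5) (Fin 5) ℤ, g.val = 1 + N • W := by
  constructor
  · intro h
    choose w hw using h
    refine ⟨Matrix.of fun i j => w j i, ?_⟩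
    ext i j
    rw [eq_add_of_sub_eq' (hw j i)]
    simp [Matrix.one_apply]
  · rintro ⟨W, hW⟩ j i
    refine ⟨W i j, ?_⟩
    rw [hW, Matrix.add_apply, Matrix.one_apply, Matrix.smul_apply, smul_eq_mul, add_sub_cancel_left]

theorem Cong.conj {N : ℤ} {k : G5} (hk : Cong N k) (g : G5) : Cong N (g * k * g⁻¹) := by
  obtain ⟨W, hW⟩ := cong_iff.1 hk
  refine cong_iff.2 ⟨g.val * W * (g⁻¹).val, ?_⟩
  rw [Units.val_mul, Units.val_mul, hW, Matrix.mul_add, Matrix.add_mul, Matrix.mul_one,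
    Units.mul_inv, Matrix.mul_smul, Matrix.smul_mul]

/-- `g = h + N W` gives `g h⁻¹ = 1 + N W h⁻¹`. -/
theorem cong_of_sub {N : ℤ} {g h : G5} (H : ∀ i j, N ∣ g.val i j - h.val i j) :
    Cong N (g * h⁻¹) := by
  choose W hW using H
  have e : g.val = h.val + N • Matrix.of W := by
    ext i j
    rw [eq_add_of_sub_eq' (hW i j)]
    simp
  refine cong_iff.2 ⟨Matrix.of W * (h⁻¹).val, ?_⟩
  rw [Units.val_mul, e, Matrix.add_mul, Units.mul_inv, Matrix.smul_mul]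

theorem isGK_one (K : ℕ) : IsGK K 1 := by
  exact ⟨isG1_one, col_one _⟩

theorem IsGK.mul {K : ℕ} {g h : G5} (hg : IsGK K g) (hh : IsGK K h) : IsGK K (g * h) := by
  exact ⟨hg.g1.mul hh.g1, fun j => by simpa using (hg.cong j).mul (hh.cong j)⟩

theorem IsGK.inv {K : ℕ} {g : G5} (hg : IsGK K g) : IsGK K g⁻¹ := by
  exact ⟨hg.g1.inv, fun j => (hg.cong j).inv rfl⟩

theorem IsGK.conj {K : ℕ} {k g : G5} (hk : IsGK K k) (hg : IsG1 g) : IsGK K (g * k * g⁻¹) := by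
  exact ⟨(hg.mul hk.g1).mul hg.inv, hk.cong.conj g⟩

end Pool.Agent.Lib.MP_94aef8_gt.Lor
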