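import Pool.Agent.Lib.MP_94aef8_gt.G.Grp

/-!
The group `G₂` and the explicit elements.
-/

open scoped ContDiff Topology
open Matrix Set Filter

namespace Pool.Agent.Lib.MP_94aef8_gt.Lor

open Hb

theorem grp2_two (s : ℤˣ) : (2 : ℤ) ∣ s - 1 := by
  rcases Int.units_eq_one_or s with rfl | rfl <;> simp

theorem grp2_eq {s e : ℤˣ} {K : ℤ} (hK : 3 ≤ K) (h : K ∣ (s : ℤ) - e) : s = e := by
  have h2 : ¬K ∣ 2 := fun h => by
    have := Int.le_of_dvd two_pos h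
    omega
  rcases Int.units_eq_one_or s with rfl | rfl <;> rcases Int.units_eq_one_or e with rfl | rfl
  · rfl
  · exact absurd h h2
  · exact absurd (dvd_neg.1 h) h2
  · rfl

theorem grp2_rv (s : Fin 3 → ℤˣ) (v : Fin 3 → ℤ) (u : Fin 5 → ℝ) :
    rv (aff s v) u = ![u 0, v 0 * u 0 + (s 0 : ℤ) * u 1, v 1 * u 0 + (s 1 : ℤ) * u 2,
      v 2 * u 0 + (s 2 : ℤ) * u 3, (v 0 ^ 2 + v 1 ^ 2 + v 2 ^ 2) * u 0 +
        2 * (s 0 : ℤ) * v 0 * u 1 + 2 * (s 1 : ℤ) * v 1 * u 2 + 2 * (s 2 : ℤ) * v 2 * u 3 + u 4] := by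
  funext i
  fin_cases i <;> simp [rv, aff, affM, Matrix.mulVec, dotProduct, Fin.sum_univ_five]

theorem grp2_rv_inver (u : Fin 5 → ℝ) : rv inver u = ![u 4, u 1, u 2, u 3, u 0] := by
  funext i
  fin_cases i <;> simp [rv, inver, invM, Matrix.mulVec, dotProduct, Fin.sum_univ_five]

theorem isG2_one : IsG2 1 := by
  exact ⟨isG1_one, col_one 2, 1, 1, col_one 4 1, col_one 4 2, col_one 4 3⟩

theorem IsG2.mul {g h : G5} (hg : IsG2 g) (hh : IsG2 h) : IsG2 (g * h) := by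
  obtain ⟨e, f, a1, a2, a3⟩ := hg.col
  obtain ⟨e', f', b1, b2, b3⟩ := hh.col
  exact ⟨hg.g1.mul hh.g1, fun j => (hg.cong j).mul (hh.cong j), e * e', f * f', a1.mul b1,
    a2.mul b2, a3.mul b3⟩

theorem IsG2.inv {g : G5} (hg : IsG2 g) : IsG2 g⁻¹ := by
  obtain ⟨e, f, a1, a2, a3⟩ := hg.col
  exact ⟨hg.g1.inv, fun j => (hg.cong j).inv rfl, e, f, a1.inv (Int.units_coe_mul_self e),
    a2.inv (Int.units_coe_mul_self e), a3.inv (Int.units_coe_mul_self f)⟩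

/-- `g⁻¹ e_j = e_j + 2 u`, `γ u = u + 2 u'` (as `γ ≡ 1` mod 2), `γ e_j = s e_j + 4 w`, and
`2 u ≡ s (2 u)` mod 4 for `s = ±1`; so `γ g⁻¹ e_j = s (e_j + 2 u) + 4 w'` and
`g γ g⁻¹ e_j = s e_j + 4 g w'`. -/
theorem col_conj {γ g : G5} {s : ℤˣ} {j : Fin 5} (h2 : Cong 2 γ) (h4 : Col 4 s γ j)
    (hg : Col 2 1 g⁻¹ j) : Col 4 s (g * γ * g⁻¹) j := by
  obtain ⟨u, hu⟩ := col_iff.1 hg
  obtain ⟨w, hw⟩ := col_iff.1 h4
  obtain ⟨W, hW⟩ := cong_iff.1 h2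
  obtain ⟨t, ht⟩ := grp2_two s
  have h1 : zv γ (zv g⁻¹ (Pi.single j 1)) =
      (s : ℤ) • zv g⁻¹ (Pi.single j 1) + (4 : ℤ) • (w + W *ᵥ u - t • u) := by
    rw [hu, one_smul, zv, mulVec_add, mulVec_smul, ← zv, hw, hW, add_mulVec, one_mulVec,
      smul_mulVec]
    funext i
    simp only [Pi.add_apply, Pi.smul_apply, Pi.sub_apply, smul_eq_mul]
    linear_combination -2 * u i * ht
  refine col_iff.2 ⟨zv g (w + W *ᵥ u - t • u), ?_⟩
  rw [zv_mul, zv_mul, h1, zv, mulVec_add, mulVec_smul, mulVec_smul, ← zv, ← zv, ← zv_mul,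
    mul_inv_cancel, zv_one]

theorem IsG2.conj {γ g : G5} (hγ : IsG2 γ) (hg : IsG1 g) : IsG2 (g * γ * g⁻¹) := by
  obtain ⟨e, f, a1, a2, a3⟩ := hγ.col
  exact ⟨(hg.mul hγ.g1).mul hg.inv, hγ.cong.conj g, e, f, col_conj hγ.cong a1 hg.inv.c1,
    col_conj hγ.cong a2 hg.inv.c2, col_conj hγ.cong a3 hg.inv.c3⟩

theorem IsGK.isG2 {K : ℕ} {k : G5} (h4 : 4 ∣ K) (hk : IsGK K k) : IsG2 k := by
  have h : (4 : ℤ) ∣ K := Int.natCast_dvd_natCast.2 h4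
  exact ⟨hk.g1, fun j => (hk.cong j).of_dvd (dvd_trans ⟨2, rfl⟩ h), 1, 1, (hk.cong 1).of_dvd h,
    (hk.cong 2).of_dvd h, (hk.cong 3).of_dvd h⟩

theorem isG1_aff (s : Fin 3 → ℤˣ) (v : Fin 3 → ℤ) : IsG1 (aff s v) := by
  have h : ∀ i, ((s i : ℤ) : ℝ) * (s i : ℤ) = 1 := fun i => by
    exact_mod_cast Int.units_coe_mul_self (s i)
  refine ⟨fun u w => ?_, fun u _ hu => by simpa [grp2_rv] using hu, fun i => ?_, fun i => ?_,
    fun i => ?_⟩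
  · simp only [grp2_rv, bl, Matrix.cons_val]
    linear_combination 2 * u 1 * w 1 * h 0 + 2 * u 2 * w 2 * h 1 + 2 * u 3 * w 3 * h 2
  all_goals fin_cases i <;> simp [aff, affM, grp2_two, mul_assoc]

theorem isG1_inver : IsG1 inver := by
  refine ⟨fun u w => ?_, fun u h hu => ?_, by unfold Col; decide, by unfold Col; decide,
    by unfold Col; decide⟩
  · simp only [grp2_rv_inver, bl, Matrix.cons_val]
    ring
  · simp only [grp2_rv_inver, bl, Matrix.cons_val] at h ⊢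
    nlinarith [mul_self_nonneg (u 1), mul_self_nonneg (u 2), mul_self_nonneg (u 3)]

theorem zv_aff_nu (s : Fin 3 → ℤˣ) (v : Fin 3 → ℤ) : zv (aff s v) nu = nu := by
  funext i
  fin_cases i <;> simp [zv, aff, affM, nu, Matrix.mulVec, dotProduct, Fin.sum_univ_five]

theorem isG2_syM (u : Sy) : IsG2 (syM u) := by
  have h : ∀ (a : ℤˣ) (b : ℤ), (4 : ℤ) ∣ 2 * a * (2 * b) := fun a b => ⟨a * b, by ring⟩
  have h2 : (2 : ℤ) ∣ (2 * u.v 0) ^ 2 + (2 * u.v 1) ^ 2 + (2 * u.v 2) ^ 2 :=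
    ⟨2 * (u.v 0 ^ 2 + u.v 1 ^ 2 + u.v 2 ^ 2), by ring⟩
  refine ⟨isG1_aff _ _, fun j i => ?_, u.e, u.e', fun i => ?_, fun i => ?_, fun i => ?_⟩
  · fin_cases i <;> fin_cases j <;> simp [syM, aff, affM, grp2_two, h2, mul_assoc]
  all_goals fin_cases i <;> simp [syM, aff, affM, h]

theorem isGK_tr5 (K : ℕ) (m : Fin 3 → ℤ) : IsGK K (tr5 fun i => K * m i) := by
  have h : ∀ b : ℤ, (K : ℤ) ∣ 2 * (K * b) := fun b => ⟨2 * b, by ring⟩
  have h2 : (K : ℤ) ∣ (K * m 0) ^ 2 + (K * m 1) ^ 2 + (K * m 2) ^ 2 :=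
    ⟨K * (m 0 ^ 2 + m 1 ^ 2 + m 2 ^ 2), by ring⟩
  refine ⟨isG1_aff _ _, fun j i => ?_⟩
  fin_cases i <;> fin_cases j <;> simp [tr5, aff, affM, h, h2]

/-- Column 0 gives `K ∣ v i`, the diagonal entries give `K ∣ s i - 1`. -/
theorem aff_of_isGK {K : ℕ} (hK : 3 ≤ K) {s : Fin 3 → ℤˣ} {v : Fin 3 → ℤ} (h : IsGK K (aff s v)) :
    ∃ m : Fin 3 → ℤ, aff s v = tr5 fun i => K * m i := by
  have h1 : ∀ i, (K : ℤ) ∣ v i := fun i => by
    have := h.cong 0 i.castSucc.succ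
    fin_cases i <;> simpa [aff, affM] using this
  have h2 : ∀ i, s i = 1 := fun i => grp2_eq (K := K) (by exact_mod_cast hK) (by
    have := h.cong i.castSucc.succ i.castSucc.succ
    fin_cases i <;> simpa [aff, affM] using this)
  choose m hm using h1
  exact ⟨m, congrArg₂ aff (funext h2) (funext hm)⟩

/-- Column 0 gives `2 ∣ v i`, the diagonal entries give `4 ∣ s 0 - e`, `4 ∣ s 1 - e`. -/
theorem aff_of_isG2 {s : Fin 3 → ℤˣ} {v : Fin 3 → ℤ} (h : IsG2 (aff s v)) :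
    ∃ u : Sy, aff s v = syM u := by
  have h1 : ∀ i, (2 : ℤ) ∣ v i := fun i => by
    have := h.cong 0 i.castSucc.succ
    fin_cases i <;> simpa [aff, affM] using this
  obtain ⟨e, f, a1, a2, -⟩ := h.col
  have h2 : s 0 = e := grp2_eq (K := 4) (by norm_num) (by simpa [aff, affM] using a1 1)
  have h3 : s 1 = e := grp2_eq (K := 4) (by norm_num) (by simpa [aff, affM] using a2 2)
  choose m hm using h1
  refine ⟨⟨e, s 2, m⟩, congrArg₂ aff (funext fun i => ?_) (funext hm)⟩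
  fin_cases i
  exacts [h2, h3, rfl]

end Pool.Agent.Lib.MP_94aef8_gt.Lor
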