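import Pool.Agent.Lib.MP_94aef8_gt.G.Act

/-!
The action is isometric.
-/

open scoped ContDiff Topology
open Matrix Set Filter

namespace Pool.Agent.Lib.MP_94aef8_gt.Lor

open Hb

/-- The derivative of `iota` at `p` applied to `v`. -/
noncomputable def diota (p : E4) (v : E4) : Fin 5 → ℝ := fderiv ℝ iota p v

theorem iota_differentiableAt {p : E4} (hp : p ∈ UH) : DifferentiableAt ℝ iota p := by
  have h : p 3 ≠ 0 := ne_of_gt hp
  refine differentiableAt_pi.2 fun i => ?_
  fin_cases i <;> simp only [iota] <;> simp <;> fun_prop (disch := exact h)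

theorem iso_comp {p : E4} (hp : p ∈ UH) (v : E4) (i : Fin 5) {f : E4 → ℝ} {f' : E4 →L[ℝ] ℝ}
    (hf : HasFDerivAt f f' p) (h : ∀ q, iota q i = f q / q 3) :
    diota p v i = f' v / p 3 - f p * v 3 / p 3 ^ 2 := by
  have h0 : p 3 ≠ 0 := ne_of_gt hp
  have h1 := hasFDerivAt_pi'.1 (iota_differentiableAt hp).hasFDerivAt i
  have h2 := hf.mul ((hasDerivAt_inv h0).comp_hasFDerivAt p (hfdCoord 3 p))
  have h3 := DFunLike.congr_fun (h1.unique (h2.congr_of_eventuallyEq
    (Eventually.of_forall fun q => (h q).trans (div_eq_mul_inv _ _)))) v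
  refine h3.trans ?_
  simp
  ring

/-- The hyperbolic metric is the pull back of the form: with `y = p 3`,
`diota p v = (-v3/y², v0/y - p0 v3/y², .., 2 (p · v)/y - |p|² v3/y²)`. -/
theorem bl_diota {p : E4} (hp : p ∈ UH) (v : E4) :
    bl (diota p v) (diota p v) = 2 * qf (GH p) v.ofLp := by
  have h : p 3 ≠ 0 := ne_of_gt hp
  rw [bl, iso_comp hp v 0 (hasFDerivAt_const 1 p) fun _ => rfl,
    iso_comp hp v 1 (hfdCoord 0 p) fun _ => rfl, iso_comp hp v 2 (hfdCoord 1 p) fun _ => rfl,
    iso_comp hp v 3 (hfdCoord 2 p) fun _ => rfl,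
    iso_comp hp v 4 (((((hfdCoord 0 p).pow 2).add ((hfdCoord 1 p).pow 2)).add
      ((hfdCoord 2 p).pow 2)).add ((hfdCoord 3 p).pow 2)) fun _ => rfl, GH, qf_smul, qf_one]
  simp
  field_simp
  ring

/-- Differentiate `iota ∘ act g = rv g ∘ iota` (true near `p`; `rv g` is linear):
`diota (act g p) (D act v) = rv g (diota p v)`. Then `pull_eq_of_qf`, `jac_mulVec`, `hg.form`. -/
theorem act_iso {g : G5} (hg : IsG1 g) {p : E4} (hp : p ∈ UH) : pull (act g) GH p = GH p := by
  have hd : DifferentiableAt ℝ (act g) p :=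
    ((act_smooth hg).contDiffAt (isOpen_UH.mem_nhds hp)).differentiableAt (by simp)
  have h1 := (iota_differentiableAt (act_up hg hp)).hasFDerivAt.comp p hd.hasFDerivAt
  have h2 := (LinearMap.toContinuousLinearMap
    (g.val.map (Int.cast : ℤ → ℝ)).mulVecLin).hasFDerivAt.comp p
      (iota_differentiableAt hp).hasFDerivAt
  have h3 := h1.unique (h2.congr_of_eventuallyEq
    (mem_of_superset (isOpen_UH.mem_nhds hp) fun q hq => iota_act hg hq))
  refine pull_eq_of_qf (by simp [GH]) (by simp [GH]) fun v => ?_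
  have h4 : diota (act g p) (fderiv ℝ (act g) p v) = rv g (diota p v) := DFunLike.congr_fun h3 v
  have h5 := bl_diota (act_up hg hp) (fderiv ℝ (act g) p v)
  rw [h4, hg.form, bl_diota hp] at h5
  rw [jac_mulVec hd.hasFDerivAt]
  linarith

/-- The determinant does not vanish by `act_iso` (take determinants). -/
theorem act_ldif {g : G5} (hg : IsG1 g) : LDif (act g) UH UH := by
  refine ⟨isOpen_UH, act_smooth hg, fun p hp => act_up hg hp, fun p hp h => ?_⟩
  have h1 := congrArg Matrix.det (act_iso hg hp)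
  rw [pull, det_mul, h, mul_zero, GH, det_smul, det_one, mul_one] at h1
  exact pow_ne_zero _ (inv_ne_zero (pow_ne_zero 2 (ne_of_gt hp))) h1.symm

end Pool.Agent.Lib.MP_94aef8_gt.Lor
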