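import Pool.Agent.Lib.MP_94aef8_gt.G.Bas

/-!
The lattice `ℤ^5` with the form `|b|² - a c`, the hyperboloid model and the integral groups.
A vector is `(a, b₁, b₂, b₃, c)`, with indices `0, 1, 2, 3, 4`.
-/

open scoped ContDiff
open Matrix Set

namespace Pool.Agent.Lib.MP_94aef8_gt.Lor

open Hb

/-- Twice the polar form of `|b|² - a c`. -/
def bl {R : Type} [CommRing R] (u v : Fin 5 → R) : R :=
  2 * (u 1 * v 1 + u 2 * v 2 + u 3 * v 3) - u 0 * v 4 - u 4 * v 0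

/-- The point of the hyperboloid attached to a point of the upper half space. -/
noncomputable def iota (p : E4) : Fin 5 → ℝ :=
  ![1 / p 3, p 0 / p 3, p 1 / p 3, p 2 / p 3, (p 0 ^ 2 + p 1 ^ 2 + p 2 ^ 2 + p 3 ^ 2) / p 3]

/-- The inverse of `iota`. -/
noncomputable def prj (u : Fin 5 → ℝ) : E4 := mk4 (u 1 / u 0) (u 2 / u 0) (u 3 / u 0) (1 / u 0)

/-- Invertible integral matrices. -/
abbrev G5 : Type := (Matrix (Fin 5) (Fin 5) ℤ)ˣ

/-- The action on integral vectors. -/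
def zv (g : G5) (v : Fin 5 → ℤ) : Fin 5 → ℤ := g.val *ᵥ v

/-- The action on real vectors. -/
def rv (g : G5) (v : Fin 5 → ℝ) : Fin 5 → ℝ := (g.val.map (Int.cast : ℤ → ℝ)) *ᵥ v

/-- The action on the upper half space (the identity elsewhere). -/
noncomputable def act (g : G5) (p : E4) : E4 := if 0 < p 3 then prj (rv g (iota p)) else p

/-- The cusp at infinity. -/
def nu : Fin 5 → ℤ := ![0, 0, 0, 0, 1]

/-- The column `j` of `g` is congruent modulo `N` to `s` times the `j`-th basis vector. -/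
def Col (N s : ℤ) (g : G5) (j : Fin 5) : Prop :=
  ∀ i, N ∣ g.val i j - if i = j then s else 0

/-- The group `G₁`: preserves the form and the sheet, and fixes `e₁, e₂, e₃` modulo 2. -/
structure IsG1 (g : G5) : Prop where
  form : ∀ u v : Fin 5 → ℝ, bl (rv g u) (rv g v) = bl u v
  sheet : ∀ u : Fin 5 → ℝ, bl u u < 0 → 0 < u 0 → 0 < rv g u 0
  c1 : Col 2 1 g 1
  c2 : Col 2 1 g 2
  c3 : Col 2 1 g 3

/-- `g` is congruent to the identity modulo `N`. -/
def Cong (N : ℤ) (g : G5) : Prop := ∀ j, Col N 1 g j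

/-- The congruence subgroup of level `K` of `G₁`. -/
structure IsGK (K : ℕ) (g : G5) : Prop where
  g1 : IsG1 g
  cong : Cong K g

/-- The group `G₂`. -/
structure IsG2 (g : G5) : Prop where
  g1 : IsG1 g
  cong : Cong 2 g
  col : ∃ e f : ℤˣ, Col 4 e g 1 ∧ Col 4 e g 2 ∧ Col 4 f g 3

/-- The matrix of `x ↦ diag(s) x + v`. -/
def affM (s : Fin 3 → ℤˣ) (v : Fin 3 → ℤ) : Matrix (Fin 5) (Fin 5) ℤ :=
  !![1, 0, 0, 0, 0;
    v 0, (s 0 : ℤ), 0, 0, 0;
    v 1, 0, (s 1 : ℤ), 0, 0;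
    v 2, 0, 0, (s 2 : ℤ), 0;
    v 0 ^ 2 + v 1 ^ 2 + v 2 ^ 2, 2 * (s 0 : ℤ) * v 0, 2 * (s 1 : ℤ) * v 1, 2 * (s 2 : ℤ) * v 2, 1]

theorem affM_mul_inv (s : Fin 3 → ℤˣ) (v : Fin 3 → ℤ) :
    affM s v * affM s (fun i => -((s i : ℤ) * v i)) = 1 := by
  ext i j
  have h0 := Int.units_coe_mul_self (s 0)
  have h1 := Int.units_coe_mul_self (s 1)
  have h2 := Int.units_coe_mul_self (s 2)
  fin_cases i <;> fin_cases j <;> simp [affM, Matrix.mul_apply, Fin.sum_univ_five] <;> grind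

/-- The element `x ↦ diag(s) x + v` of the stabiliser of the cusp. -/
def aff (s : Fin 3 → ℤˣ) (v : Fin 3 → ℤ) : G5 :=
  ⟨affM s v, affM s fun i => -((s i : ℤ) * v i), affM_mul_inv s v,
    mul_eq_one_comm.1 (affM_mul_inv s v)⟩

/-- The matrix of the inversion. -/
def invM : Matrix (Fin 5) (Fin 5) ℤ :=
  !![0, 0, 0, 0, 1; 0, 1, 0, 0, 0; 0, 0, 1, 0, 0; 0, 0, 0, 1, 0; 1, 0, 0, 0, 0]

theorem invM_sq : invM * invM = 1 := by decide

/-- The inversion in the unit sphere. -/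
def inver : G5 := ⟨invM, invM, invM_sq, invM_sq⟩

/-- The matrix of a cusp symmetry. -/
def syM (u : Sy) : G5 := aff ![u.e, u.e, u.e'] fun i => 2 * u.v i

/-- The translation by `v`. -/
def tr5 (v : Fin 3 → ℤ) : G5 := aff (fun _ => 1) v

theorem rv_mul (g h : G5) (v : Fin 5 → ℝ) : rv (g * h) v = rv g (rv h v) := by
  have : ((g * h).val.map (Int.cast : ℤ → ℝ)) =
      g.val.map (Int.cast : ℤ → ℝ) * h.val.map (Int.cast : ℤ → ℝ) := by
    simpa using Matrix.map_mul (L := g.val) (M := h.val) (f := Int.castRingHom ℝ)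
  simp only [rv, this, Matrix.mulVec_mulVec]

theorem rv_one (v : Fin 5 → ℝ) : rv 1 v = v := by
  simp [rv]

theorem zv_mul (g h : G5) (v : Fin 5 → ℤ) : zv (g * h) v = zv g (zv h v) := by
  simp [zv, Matrix.mulVec_mulVec]

theorem zv_one (v : Fin 5 → ℤ) : zv 1 v = v := by
  simp [zv]

theorem rv_cast (g : G5) (v : Fin 5 → ℤ) :
    rv g (fun i => (v i : ℝ)) = fun i => ((zv g v i : ℤ) : ℝ) := by
  funext i
  simp [rv, zv, Matrix.mulVec, dotProduct]

theorem bl_iota {p : E4} (hp : p ∈ UH) : bl (iota p) (iota p) = -2 := by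
  have h : p 3 ≠ 0 := ne_of_gt hp
  simp [bl, iota]
  field_simp
  ring

theorem iota_pos {p : E4} (hp : p ∈ UH) : 0 < iota p 0 := by
  have h : 0 < p 3 := hp
  simp [iota, h]

theorem prj_iota {p : E4} (hp : p ∈ UH) : prj (iota p) = p := by
  have h : p 3 ≠ 0 := ne_of_gt hp
  refine ext4 ?_ ?_ ?_ ?_ <;> simp [prj, iota] <;> field_simp

theorem prj_up {u : Fin 5 → ℝ} (h : 0 < u 0) : prj u ∈ UH := by
  simp [prj, UH, h]

theorem iota_prj {u : Fin 5 → ℝ} (h1 : bl u u = -2) (h : 0 < u 0) : iota (prj u) = u := by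
  have h0 : u 0 ≠ 0 := ne_of_gt h
  simp only [bl] at h1
  funext i
  fin_cases i <;> simp [prj, iota] <;> field_simp
  linarith

theorem act_eq (g : G5) {p : E4} (hp : p ∈ UH) : act g p = prj (rv g (iota p)) := if_pos hp

theorem act_not (g : G5) {p : E4} (hp : p ∉ UH) : act g p = p := if_neg hp

end Pool.Agent.Lib.MP_94aef8_gt.Lor
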