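import Pool.Agent.Lib.MP_94aef8_gt.G.Iso
import Pool.Agent.Lib.MP_94aef8_gt.G.Free
import Pool.Agent.Lib.MP_94aef8_gt.G.Cusp
import Pool.Agent.Lib.MP_94aef8_gt.G.Conn

/-!
The arithmetic data exist.
-/

open scoped ContDiff Topology
open Matrix Set Filter

namespace Pool.Agent.Lib.MP_94aef8_gt.Lor

open Hb

/-- The transitions from the frame `r a` to the frame `r b`. -/
def trS (K : ℕ) {C : Type} (r : C → G5) (a b : C) : Set (E4 → E4) :=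
  {τ | ∃ κ, IsGK K κ ∧ τ = act ((r b)⁻¹ * κ * r a)}

section

variable {K : ℕ} {C : Type} {r : C → G5} (hr : ∀ c, IsG1 (r c))
include hr

theorem main_g1 {κ : G5} (hκ : IsGK K κ) (a b : C) : IsG1 ((r b)⁻¹ * κ * r a) :=
  ((hr b).inv.mul hκ.g1).mul (hr a)

theorem trS_comp {a b c : C} {τ τ' : E4 → E4} (h : τ ∈ trS K r a b) (h' : τ' ∈ trS K r b c) :
    τ' ∘ τ ∈ trS K r a c := by
  obtain ⟨κ, hκ, rfl⟩ := h
  obtain ⟨κ', hκ', rfl⟩ := h'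
  refine ⟨κ' * κ, hκ'.mul hκ, ?_⟩
  rw [← act_mul (main_g1 hr hκ a b)]
  congr 1
  group

theorem trS_inv {a b : C} {τ : E4 → E4} (h : τ ∈ trS K r a b) :
    ∃ τ' ∈ trS K r b a, ∀ p ∈ UH, τ' (τ p) = p ∧ τ (τ' p) = p := by
  obtain ⟨κ, hκ, rfl⟩ := h
  refine ⟨_, ⟨κ⁻¹, hκ.inv, rfl⟩, fun p _ => ⟨?_, ?_⟩⟩
  · have e := congrFun (act_mul (g := (r a)⁻¹ * κ⁻¹ * r b) (main_g1 hr hκ a b)) p
    rw [show (r a)⁻¹ * κ⁻¹ * r b * ((r b)⁻¹ * κ * r a) = 1 by group, act_one] at e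
    exact e.symm
  · have e := congrFun (act_mul (g := (r b)⁻¹ * κ * r a) (main_g1 hr hκ.inv b a)) p
    rw [show (r b)⁻¹ * κ * r a * ((r a)⁻¹ * κ⁻¹ * r b) = 1 by group, act_one] at e
    exact e.symm

/-- `height_stab` gives `zv (κ * r a) nu = zv (r b) nu`, so `a = b`; then the element is a
conjugate of `κ`, lies in `G_K` and fixes `nu`: `stab_aff`, `aff_of_isGK`, `act_tr5`. -/
theorem trS_high (hK : 3 ≤ K)
    (hu : ∀ c c' κ, IsGK K κ → zv (κ * r c) nu = zv (r c') nu → c = c') {a b : C} {τ : E4 → E4}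
    (h : τ ∈ trS K r a b) {p : E4} (hp : p ∈ UH) (hh : 1 < p 3 * τ p 3) :
    a = b ∧ ∃ v, ∀ q ∈ UH, τ q = trl K v q := by
  obtain ⟨κ, hκ, rfl⟩ := h
  have h1 := height_stab (main_g1 hr hκ a b) hp hh
  have h2 : zv (κ * r a) nu = zv (r b) nu := by
    conv_rhs => rw [← h1, ← zv_mul]
    congr 1
    group
  obtain rfl := hu a b κ hκ h2
  obtain ⟨s, v, e⟩ := stab_aff (main_g1 hr hκ a a) h1
  have h3 := hκ.conj (hr a).inv
  rw [inv_inv, e] at h3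
  obtain ⟨m, hm⟩ := aff_of_isGK hK h3
  exact ⟨rfl, m, fun q hq => by rw [e, hm, act_tr5 K m hq]⟩

theorem trS_lat (c : C) (v : Fin 3 → ℤ) : ∃ τ ∈ trS K r c c, ∀ q ∈ UH, τ q = trl K v q := by
  refine ⟨_, ⟨_, (isGK_tr5 K v).conj (hr c), rfl⟩, fun q hq => ?_⟩
  rw [← act_tr5 K v hq]
  congr 1
  group

/-- Let `g` be given by `reduce` at `p`; `r c * g⁻¹` has the cusp of some `κ * r c'`, so
`(κ * r c')⁻¹ * (r c * g⁻¹) = aff s v` keeps heights, and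
`(r c')⁻¹ * κ⁻¹ * r c = aff s v * g`. -/
theorem trS_red (hc : ∀ g, IsG1 g → ∃ c κ, IsGK K κ ∧ zv g nu = zv (κ * r c) nu) (c : C) {p : E4}
    (hp : p ∈ UH) : ∃ c', ∃ τ ∈ trS K r c c', 3 / 8 ≤ τ p 3 := by
  obtain ⟨g, hg, hh⟩ := reduce hp
  obtain ⟨c', κ, hκ, e⟩ := hc _ ((hr c).mul hg.inv)
  have h1 : zv ((κ * r c')⁻¹ * (r c * g⁻¹)) nu = nu := by
    rw [zv_mul, e, ← zv_mul, inv_mul_cancel, zv_one]
  obtain ⟨s, v, e'⟩ := stab_aff ((hκ.g1.mul (hr c')).inv.mul ((hr c).mul hg.inv)) h1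
  refine ⟨c', _, ⟨κ⁻¹, hκ.inv, rfl⟩, ?_⟩
  rw [show (r c')⁻¹ * κ⁻¹ * r c = (κ * r c')⁻¹ * (r c * g⁻¹) * g by group, e', act_mul hg,
    Function.comp_apply, act_aff s v (act_up hg hp)]
  exact hh

/-- Put `γ = r c * syM u * (r c)⁻¹ ∈ G₂`. Choose for every `a` the data `γ * r a = κ a * r (φ a) *
syM (U a)`, with `(c, 1, u)` for `a = c`. For `τ = act ((r b)⁻¹ κ r a)` take
`κ' = (κ b)⁻¹ * (γ κ γ⁻¹) * κ a`; then `(r (φ b))⁻¹ κ' r (φ a) * syM (U a) =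
syM (U b) * ((r b)⁻¹ κ r a)`. -/
theorem trS_sym
    (hs : ∀ γ, IsG2 γ → ∀ c, ∃ c' κ, ∃ u : Sy, IsGK K κ ∧ γ * r c = κ * r c' * syM u) (c : C)
    (u : Sy) : ∃ (φ : C → C) (U : C → Sy), φ c = c ∧ U c = u ∧ ∀ a b, ∀ τ ∈ trS K r a b,
      ∃ τ' ∈ trS K r (φ a) (φ b), ∀ q ∈ UH, τ' ((U a).act q) = (U b).act (τ q) := by
  classical
  have hγ := (isG2_syM u).conj (hr c)
  obtain ⟨γ, e⟩ : ∃ γ, γ = r c * syM u * (r c)⁻¹ := ⟨_, rfl⟩
  rw [← e] at hγ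
  have key : ∀ a, ∃ c' κ, ∃ w : Sy, IsGK K κ ∧ γ * r a = κ * r c' * syM w ∧
      (a = c → c' = c ∧ w = u) := by
    intro a
    by_cases ha : a = c
    · exact ⟨c, 1, u, isGK_one K, by rw [ha, e]; group, fun _ => ⟨rfl, rfl⟩⟩
    · obtain ⟨c', κ, w, h1, h2⟩ := hs γ hγ a
      exact ⟨c', κ, w, h1, h2, fun h => absurd h ha⟩
  choose φ k U h1 h2 h3 using key
  refine ⟨φ, U, (h3 c rfl).1, (h3 c rfl).2, ?_⟩
  rintro a b _ ⟨κ, hκ, rfl⟩
  refine ⟨_, ⟨(k b)⁻¹ * (γ * κ * γ⁻¹) * k a, ((h1 b).inv.mul (hκ.conj hγ.g1)).mul (h1 a), rfl⟩,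
    fun q hq => ?_⟩
  have e1 : (r (φ b))⁻¹ * ((k b)⁻¹ * (γ * κ * γ⁻¹) * k a) * r (φ a) * syM (U a) =
      syM (U b) * ((r b)⁻¹ * κ * r a) := by
    have ea : r (φ a) = (k a)⁻¹ * (γ * r a) * (syM (U a))⁻¹ := by rw [h2 a]; group
    have eb : r (φ b) = (k b)⁻¹ * (γ * r b) * (syM (U b))⁻¹ := by rw [h2 b]; group
    rw [ea, eb]
    group
  have e2 := congrFun (congrArg act e1) q
  rw [act_mul (isG2_syM _).g1, act_mul (main_g1 hr hκ a b), Function.comp_apply,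
    Function.comp_apply, act_syM _ hq, act_syM _ (act_up (main_g1 hr hκ a b) hq)] at e2
  exact e2

/-- The set is contained in the image under `act` of the finite set of `proper`. -/
theorem trS_proper (a b : C) {S S' : Set E4} (hS : IsCompact S) (hS' : IsCompact S')
    (hU : S ⊆ UH) (hU' : S' ⊆ UH) : {τ | τ ∈ trS K r a b ∧ ∃ p ∈ S, τ p ∈ S'}.Finite := by
  refine ((proper hS hS' hU hU').image act).subset ?_
  rintro _ ⟨⟨κ, hκ, rfl⟩, h⟩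
  exact ⟨_, ⟨main_g1 hr hκ a b, h⟩, rfl⟩

theorem trS_free (hK : 4 ≤ K) {c : C} {τ : E4 → E4} (h : τ ∈ trS K r c c) {p : E4} (hp : p ∈ UH)
    (e : τ p = p) (q : E4) : τ q = q := by
  obtain ⟨κ, hκ, rfl⟩ := h
  have h3 := hκ.conj (hr c).inv
  rw [inv_inv] at h3
  rw [free hK h3 hp e, act_one, id]

theorem trS_ldif {a b : C} {τ : E4 → E4} (h : τ ∈ trS K r a b) :
    LDif τ UH UH ∧ ∀ p ∈ UH, pull τ GH p = GH p := by
  obtain ⟨κ, hκ, rfl⟩ := h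
  exact ⟨act_ldif (main_g1 hr hκ a b), fun p hp => act_iso (main_g1 hr hκ a b) hp⟩

end

theorem trS_refl (K : ℕ) {C : Type} (r : C → G5) (c : C) : id ∈ trS K r c c :=
  ⟨1, isGK_one K, by simp [act_one]⟩

theorem exists_arith {K : ℕ} (h0 : 0 < K) (h4 : 4 ∣ K) : Nonempty (Arith K) := by
  obtain ⟨C, hf, hn, r, hr, hc, hu, hs⟩ := exists_reps h0 h4
  have hK : 4 ≤ K := Nat.le_of_dvd h0 h4
  exact ⟨{
    C := C
    fin := hf
    ne := hn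
    Tr := trS K r
    refl := trS_refl K r
    comp := trS_comp hr
    inv := fun h => by
      obtain ⟨τ', h1, h2⟩ := trS_inv hr h
      exact ⟨τ', h1, fun p hp => (h2 p hp).1⟩
    ld := fun h => (trS_ldif hr h).1
    iso := fun h => (trS_ldif hr h).2
    high := fun h _ hp hh => trS_high hr (by omega) hu h hp hh
    lat := trS_lat hr
    proper := fun a b _ _ hS hS' hU hU' => trS_proper hr a b hS hS' hU hU'
    free := fun h _ hp e q _ => trS_free hr hK h hp e q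
    red := fun c _ hp => trS_red hr hc c hp
    sym := trS_sym hr hs
    conn := conn_of (trS K r) (trS_comp hr) (trS_inv hr) (fun h => (trS_ldif hr h).1.maps)
      (fun h => (trS_ldif hr h).1.smooth.continuousOn)
      (fun a b => ⟨_, 1, isGK_one K, rfl⟩)
      (fun h _ hp hh => (trS_high hr (by omega) hu h hp hh).1) fun c _ hp => trS_red hr hc c hp }⟩

end Pool.Agent.Lib.MP_94aef8_gt.Lor
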