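import Pool.Agent.Lib.MP_94aef8_gt.G.Act

/-!
The action is proper.
-/

open scoped ContDiff Topology
open Matrix Set Filter

namespace Pool.Agent.Lib.MP_94aef8_gt.Lor

open Hb

/-- The positive definite majorant attached to the point `p`. -/
noncomputable def maj (p : E4) (n : Fin 5 → ℝ) : ℝ := bl n n + bl (iota p) n ^ 2

/-- A frame in which the majorant is the sum of squares. -/
noncomputable def fr (p : E4) : Matrix (Fin 5) (Fin 5) ℝ :=
  !![p 3, 0, 0, 0, 0;
    -(√2 * p 0), √2, 0, 0, 0;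
    -(√2 * p 1), 0, √2, 0, 0;
    -(√2 * p 2), 0, 0, √2, 0;
    (p 0 ^ 2 + p 1 ^ 2 + p 2 ^ 2) / p 3, -(2 * p 0 / p 3), -(2 * p 1 / p 3), -(2 * p 2 / p 3),
      1 / p 3]

/-- `maj p (a,b,c) = a² y² + 2 |b - a x|² + ((c - 2 b·x + a |x|²) / y)²`. -/
theorem maj_eq {p : E4} (hp : p ∈ UH) (n : Fin 5 → ℝ) :
    maj p n = (fr p *ᵥ n) ⬝ᵥ (fr p *ᵥ n) := by
  have h : p 3 ≠ 0 := ne_of_gt hp
  have h2 : (√2 : ℝ) ^ 2 = 2 := Real.sq_sqrt (by norm_num)
  simp [maj, bl, iota, fr, mulVec, dotProduct, Fin.sum_univ_five]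
  field_simp
  rw [h2]
  ring

/-- Lower triangular. -/
theorem fr_det {p : E4} (hp : p ∈ UH) : (fr p).det ≠ 0 := by
  have h : p 3 ≠ 0 := ne_of_gt hp
  rw [det_of_isLowerTriangular]
  · simp [fr, Fin.prod_univ_five, h]
  · intro i j hij
    have h1 : i < j := hij
    clear hij
    fin_cases i <;> fin_cases j <;> simp [fr] at h1 ⊢

theorem maj_act {g : G5} (hg : IsG1 g) {p : E4} (hp : p ∈ UH) (n : Fin 5 → ℝ) :
    maj (act g p) (rv g n) = maj p n := by
  rw [maj, iota_act hg hp, hg.form, hg.form, maj]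

theorem prop_cont {S : Set E4} (hU : S ⊆ UH) : ContinuousOn fr S := by
  have h : ∀ p ∈ S, p 3 ≠ 0 := fun p hp => ne_of_gt (hU hp)
  refine continuousOn_pi.2 fun i => continuousOn_pi.2 fun j => ?_
  fin_cases i <;> fin_cases j <;> simp [fr] <;> fun_prop (disch := exact h)

/-- The continuous function `p ↦ ∑ j, maj p e_j` is bounded on `S`. -/
theorem maj_upper {S : Set E4} (hS : IsCompact S) (hU : S ⊆ UH) :
    ∃ C : ℝ, ∀ p ∈ S, ∀ j, maj p (Pi.single j 1) ≤ C := by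
  have h2 : ContinuousOn (fun p => ∑ j, ∑ i, fr p i j ^ 2) S :=
    continuousOn_finsetSum _ fun j _ => continuousOn_finsetSum _ fun i _ =>
      (continuousOn_pi.1 (continuousOn_pi.1 (prop_cont hU) i) j).pow 2
  obtain ⟨C, hC⟩ := hS.exists_bound_of_continuousOn h2
  refine ⟨C, fun p hp j => le_trans ?_ ((le_abs_self _).trans (hC p hp))⟩
  rw [maj_eq (hU hp), mulVec_single_one]
  refine le_trans (le_of_eq ?_) (Finset.single_le_sum (f := fun j => ∑ i, fr p i j ^ 2)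
    (fun _ _ => by positivity) (Finset.mem_univ j))
  simp only [dotProduct, col_apply, sq]

/-- On `S` the coordinates, `y` and `1 / y` are bounded; bound `a`, then `b`, then `c` by the
formula of `maj_eq`. -/
theorem maj_lower {S : Set E4} (hS : IsCompact S) (hU : S ⊆ UH) (C : ℝ) :
    ∃ C' : ℝ, ∀ p ∈ S, ∀ n : Fin 5 → ℝ, maj p n ≤ C → ∀ i, |n i| ≤ C' := by
  have h1 : ContinuousOn (fun p => (fr p)⁻¹) S := fun p hp =>
    (continuousAt_matrix_inv _ (by
      rw [Ring.inverse_eq_inv']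
      exact continuousAt_inv₀ (fr_det (hU hp)))).comp_continuousWithinAt (prop_cont hU p hp)
  have h2 : ContinuousOn (fun p => ∑ i, ∑ j, |(fr p)⁻¹ i j|) S :=
    continuousOn_finsetSum _ fun i _ => continuousOn_finsetSum _ fun j _ =>
      (continuousOn_pi.1 (continuousOn_pi.1 h1 i) j).abs
  obtain ⟨B, hB⟩ := hS.exists_bound_of_continuousOn h2
  refine ⟨B * (|C| + 1), fun p hp n hn i => ?_⟩
  rw [maj_eq (hU hp)] at hn
  have h3 : ∀ j, |(fr p *ᵥ n) j| ≤ |C| + 1 := fun j => by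
    have h4 := Finset.single_le_sum (f := fun j => (fr p *ᵥ n) j * (fr p *ᵥ n) j)
      (fun _ _ => mul_self_nonneg _) (Finset.mem_univ j)
    have h5 := h4.trans (hn.trans (le_abs_self C))
    rw [← abs_mul_abs_self] at h5
    nlinarith [abs_nonneg C, abs_nonneg ((fr p *ᵥ n) j)]
  have h4 : n i = ∑ j, (fr p)⁻¹ i j * (fr p *ᵥ n) j := by
    change n i = ((fr p)⁻¹ *ᵥ (fr p *ᵥ n)) i
    rw [mulVec_mulVec, nonsing_inv_mul _ (fr_det (hU hp)).isUnit, one_mulVec]
  rw [h4]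
  refine (Finset.abs_sum_le_sum_abs _ _).trans (le_trans ?_ (mul_le_mul_of_nonneg_right
    ((Finset.single_le_sum (f := fun i => ∑ j, |(fr p)⁻¹ i j|) (fun _ _ => by positivity)
      (Finset.mem_univ i)).trans ((le_abs_self _).trans (hB p hp))) (by positivity)))
  rw [Finset.sum_mul]
  exact Finset.sum_le_sum fun j _ => by
    rw [abs_mul]
    exact mul_le_mul_of_nonneg_left (h3 j) (abs_nonneg _)

/-- The columns `rv g e_j` have `maj (act g p) (rv g e_j) = maj p e_j ≤ C`, so the entries of `g`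
are bounded; `Units.val` is injective. -/
theorem proper {S S' : Set E4} (hS : IsCompact S) (hS' : IsCompact S') (hU : S ⊆ UH)
    (hU' : S' ⊆ UH) : {g : G5 | IsG1 g ∧ ∃ p ∈ S, act g p ∈ S'}.Finite := by
  obtain ⟨C, hC⟩ := maj_upper hS hU
  obtain ⟨C', hC'⟩ := maj_lower hS' hU' C
  have h1 : (Set.pi univ fun _ : Fin 5 => Set.pi univ fun _ : Fin 5 =>
      Icc (-⌈C'⌉) ⌈C'⌉).Finite := Finite.pi fun _ => Finite.pi fun _ => finite_Icc _ _
  refine (h1.preimage (f := fun g : G5 => g.val) Units.val_injective.injOn).subset ?_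
  rintro g ⟨hg, p, hp, hp'⟩ i _ j _
  have h2 := hC' _ hp' _ ((maj_act hg (hU hp) _).trans_le (hC p hp j)) i
  rw [rv, mulVec_single_one, col_apply, map_apply] at h2
  rw [mem_Icc, ← abs_le, ← Int.cast_le (R := ℝ), Int.cast_abs]
  exact h2.trans (Int.le_ceil _)

end Pool.Agent.Lib.MP_94aef8_gt.Lor
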