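import Pool.Agent.Lib.MP_94aef8_gt.G.Act
import Pool.Agent.Lib.MP_94aef8_gt.G.Grp2

/-!
The stabiliser of the cusp, heights and reduction.
-/

open scoped ContDiff Topology
open Matrix Set Filter

namespace Pool.Agent.Lib.MP_94aef8_gt.Lor

open Hb

theorem IsG1.formZ {g : G5} (hg : IsG1 g) (u v : Fin 5 → ℤ) : bl (zv g u) (zv g v) = bl u v := by
  have h := hg.form (fun i => (u i : ℝ)) fun i => (v i : ℝ)
  rw [rv_cast, rv_cast] at h
  simp only [bl] at h ⊢
  exact_mod_cast h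

theorem stab_col (g : G5) (j : Fin 5) : zv g (Pi.single j 1) = fun i => g.val i j := by
  funext i
  simp [zv]

theorem stab_nu : nu = Pi.single 4 1 := by decide

theorem stab_sq {a b c : ℤ} (h : a * a + b * b + c * c = 1) (ho : 2 ∣ a - 1) :
    a * a = 1 ∧ b = 0 ∧ c = 0 := by
  have h0 : a ≠ 0 := by omega
  have h1 : 0 < a * a := mul_self_pos.2 h0
  have h2 := mul_self_nonneg b
  have h3 := mul_self_nonneg c
  exact ⟨by omega, mul_self_eq_zero.1 (by omega), mul_self_eq_zero.1 (by omega)⟩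

/-- Let `c_j = g e_j` be the columns; `c_4 = nu`. `bl c_j c_4 = bl e_j e_4` gives the first row
`(1,0,0,0,0)`. For `j = 1,2,3`, `bl c_j c_j = 2` says that the middle part has length one, and its
`j`-th entry is odd, so it is `± e_j`. `bl c_0 c_0 = 0` and `bl c_0 c_j = 0` give the last row. -/
theorem stab_aff {g : G5} (hg : IsG1 g) (h : zv g nu = nu) : ∃ s v, g = aff s v := by
  have H : ∀ i j, bl (fun k => g.val k i) (fun k => g.val k j) =
      bl (Pi.single i 1) (Pi.single j 1) := fun i j => by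
    rw [← stab_col, ← stab_col, hg.formZ]
  have h4 : (fun k => g.val k 4) = nu := by rw [← stab_col, ← stab_nu, h]
  have a04 : g.val 0 4 = 0 := congrFun h4 0
  have a14 : g.val 1 4 = 0 := congrFun h4 1
  have a24 : g.val 2 4 = 0 := congrFun h4 2
  have a34 : g.val 3 4 = 0 := congrFun h4 3
  have a44 : g.val 4 4 = 1 := congrFun h4 4
  have a00 : g.val 0 0 = 1 := by simpa [bl, a04, a14, a24, a34, a44] using H 0 4
  have a01 : g.val 0 1 = 0 := by simpa [bl, a04, a14, a24, a34, a44] using H 1 4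
  have a02 : g.val 0 2 = 0 := by simpa [bl, a04, a14, a24, a34, a44] using H 2 4
  have a03 : g.val 0 3 = 0 := by simpa [bl, a04, a14, a24, a34, a44] using H 3 4
  obtain ⟨a11, a21, a31⟩ := stab_sq (a := g.val 1 1) (b := g.val 2 1) (c := g.val 3 1)
    (by simpa [bl, a01] using H 1 1) (by simpa using hg.c1 1)
  obtain ⟨a22, a12, a32⟩ := stab_sq (a := g.val 2 2) (b := g.val 1 2) (c := g.val 3 2)
    (by have := H 2 2; simp [bl, a02] at this; linarith) (by simpa using hg.c2 2)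
  obtain ⟨a33, a13, a23⟩ := stab_sq (a := g.val 3 3) (b := g.val 1 3) (c := g.val 2 3)
    (by have := H 3 3; simp [bl, a03] at this; linarith) (by simpa using hg.c3 3)
  have a40 : g.val 4 0 = g.val 1 0 ^ 2 + g.val 2 0 ^ 2 + g.val 3 0 ^ 2 := by
    have := H 0 0
    simp [bl, a00] at this
    linarith
  have a41 : g.val 4 1 = 2 * g.val 1 1 * g.val 1 0 := by
    have := H 0 1
    simp [bl, a00, a01, a21, a31] at this
    linarith
  have a42 : g.val 4 2 = 2 * g.val 2 2 * g.val 2 0 := by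
    have := H 0 2
    simp [bl, a00, a02, a12, a32] at this
    linarith
  have a43 : g.val 4 3 = 2 * g.val 3 3 * g.val 3 0 := by
    have := H 0 3
    simp [bl, a00, a03, a13, a23] at this
    linarith
  refine ⟨![⟨_, _, a11, a11⟩, ⟨_, _, a22, a22⟩, ⟨_, _, a33, a33⟩],
    ![g.val 1 0, g.val 2 0, g.val 3 0], Units.ext ?_⟩
  ext i j
  fin_cases i <;> fin_cases j <;> simp [aff, affM, *]

theorem stab_dich {g : G5} (hg : IsG1 g) {p : E4} (hp : p ∈ UH) :
    zv g nu = nu ∨ p 3 ≤ rv g (iota p) 0 := by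
  have hy : 0 < p 3 := hp
  have ht := rv_iota_pos hg hp
  obtain ⟨n, hn⟩ : ∃ n, zv g n = nu := ⟨zv g⁻¹ nu, by rw [← zv_mul, mul_inv_cancel, zv_one]⟩
  have h1 : n 1 * n 1 + n 2 * n 2 + n 3 * n 3 = n 0 * n 4 := by
    have := hg.formZ n n
    rw [hn] at this
    simp [bl, nu] at this
    linarith
  have h2 : p 3 * rv g (iota p) 0 = n 4 + n 0 * (p 0 ^ 2 + p 1 ^ 2 + p 2 ^ 2 + p 3 ^ 2) -
      2 * (p 0 * n 1 + p 1 * n 2 + p 2 * n 3) := by
    have := hg.form (iota p) fun i => (n i : ℝ)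
    rw [rv_cast, hn] at this
    obtain ⟨u, hu⟩ : ∃ u, u = rv g (iota p) := ⟨_, rfl⟩
    rw [← hu] at this ⊢
    simp [bl, nu, iota] at this
    field_simp at this
    linarith
  obtain ⟨t, hu⟩ : ∃ t, t = rv g (iota p) 0 := ⟨_, rfl⟩
  rw [← hu] at ht h2 ⊢
  have h3 : (n 1 : ℝ) * n 1 + n 2 * n 2 + n 3 * n 3 = n 0 * n 4 := by exact_mod_cast h1
  have h4 : n 0 * (p 3 * t) = (n 0 * p 3) ^ 2 + ((n 0 * p 0 - n 1) ^ 2 + (n 0 * p 1 - n 2) ^ 2 +
      (n 0 * p 2 - n 3) ^ 2) := by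
    rw [h2]
    linear_combination -h3
  have h5 : 0 < p 3 * t := mul_pos hy ht
  rcases lt_trichotomy (n 0) 0 with h0 | h0 | h0
  · have h6 : (n 0 : ℝ) < 0 := by exact_mod_cast h0
    have h7 := mul_neg_of_neg_of_pos h6 h5
    rw [h4] at h7
    exact absurd h7 (not_lt.2 (by positivity))
  · left
    rw [h0, zero_mul] at h1
    have b1 := mul_self_nonneg (n 1)
    have b2 := mul_self_nonneg (n 2)
    have b3 := mul_self_nonneg (n 3)
    have c1 : n 1 = 0 := mul_self_eq_zero.1 (by omega)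
    have c2 : n 2 = 0 := mul_self_eq_zero.1 (by omega)
    have c3 : n 3 = 0 := mul_self_eq_zero.1 (by omega)
    have h6 : 0 < n 4 := by
      rw [h2, h0, c1, c2, c3] at h5
      simpa using h5
    have h7 : n = n 4 • nu := by
      funext i
      fin_cases i <;> simp [nu, h0, c1, c2, c3]
    have h8 : nu = n 4 • zv g nu := by
      rw [zv, ← Matrix.mulVec_smul, ← h7]
      exact hn.symm
    have h9 : n 4 = 1 :=
      Int.eq_one_of_mul_eq_one_right h6.le (congrFun h8 4).symm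
    rw [h9, one_smul] at h8
    exact h8.symm
  · right
    have h6 : (1 : ℝ) ≤ n 0 := by exact_mod_cast h0
    have h7 : (n 0 * p 3) * (n 0 * p 3) ≤ (n 0 * p 3) * t := by
      have : 0 ≤ (n 0 * p 0 - n 1) ^ 2 + (n 0 * p 1 - n 2) ^ 2 + (n 0 * p 2 - n 3) ^ 2 := by
        positivity
      linarith
    have h8 := le_of_mul_le_mul_left h7 (by positivity)
    exact (le_mul_of_one_le_left hy.le h6).trans h8

/-- `act g p 3 = 1 / t`, `t = rv g (iota p) 0 = - bl (rv g (iota p)) nu = - bl (iota p) n > 0` with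
`n = zv g⁻¹ nu = (a, b, c)` integral, `bl n n = 0`, i.e. `|b|² = a c`. One has
`a y t = a² y² + |a x - b|²`. If `a ≠ 0` then `a > 0` (as `t > 0`), `a ≥ 1`, `t ≥ a y ≥ y`, against
`1 < y / t`. So `a = 0`, `b = 0`, `n = c nu`, `c > 0`, and `nu = zv g n = c • zv g nu` gives
`c ∣ 1`. -/
theorem height_stab {g : G5} (hg : IsG1 g) {p : E4} (hp : p ∈ UH) (h : 1 < p 3 * act g p 3) :
    zv g nu = nu := by
  refine (stab_dich hg hp).resolve_right fun h1 => ?_
  rw [act_height hp, mul_one_div, one_lt_div (rv_iota_pos hg hp)] at h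
  exact absurd h1 (not_le.2 h)

theorem height_le {g : G5} (hg : IsG1 g) {p : E4} (hp : p ∈ UH) :
    act g p 3 ≤ max (p 3) (1 / p 3) := by
  rcases stab_dich hg hp with h | h
  · obtain ⟨s, v, rfl⟩ := stab_aff hg h
    rw [act_aff s v hp, mk4_3]
    exact le_max_left _ _
  · rw [act_height hp]
    exact (one_div_le_one_div_of_le hp h).trans (le_max_right _ _)

/-- Let `S` be the supremum of the heights `act g p 3` over `G₁` (bounded by `height_le`). Take
`g` with height `y > (57/64) S`, compose with an integral translation (`round`) so that the three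
horizontal coordinates have absolute value `≤ 1/2`. Composing with the inversion,
`y / (|x|² + y²) ≤ S < (64/57) y`, so `57/64 < 3/4 + y²`. -/
theorem reduce {p : E4} (hp : p ∈ UH) : ∃ g, IsG1 g ∧ 3 / 8 ≤ act g p 3 := by
  have hb : BddAbove {h : ℝ | ∃ g, IsG1 g ∧ act g p 3 = h} := by
    refine ⟨max (p 3) (1 / p 3), ?_⟩
    rintro _ ⟨g, hg, rfl⟩
    exact height_le hg hp
  have hle : ∀ g, IsG1 g → act g p 3 ≤ sSup {h : ℝ | ∃ g, IsG1 g ∧ act g p 3 = h} :=
    fun g hg => le_csSup hb ⟨g, hg, rfl⟩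
  have hpos : 0 < sSup {h : ℝ | ∃ g, IsG1 g ∧ act g p 3 = h} :=
    lt_of_lt_of_le (act_up isG1_one hp) (hle 1 isG1_one)
  obtain ⟨_, ⟨g, hg, rfl⟩, h1⟩ := exists_lt_of_lt_csSup
    (s := {h : ℝ | ∃ g, IsG1 g ∧ act g p 3 = h}) ⟨_, 1, isG1_one, rfl⟩
    (mul_lt_of_lt_one_left hpos (show (57 / 64 : ℝ) < 1 by norm_num))
  refine ⟨g, hg, not_lt.1 fun h2 => ?_⟩
  have hq := act_up hg hp
  have ha := isG1_aff (fun _ => 1) ![-round (act g p 0), -round (act g p 1), -round (act g p 2)]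
  have h3 := hle _ (isG1_inver.mul (ha.mul hg))
  rw [act_mul (ha.mul hg), Function.comp_apply, act_inver_height (act_up (ha.mul hg) hp),
    act_mul hg, Function.comp_apply, act_aff _ _ hq] at h3
  obtain ⟨q, hq'⟩ : ∃ q, q = act g p := ⟨_, rfl⟩
  obtain ⟨S, hS⟩ : ∃ S, S = sSup {h : ℝ | ∃ g, IsG1 g ∧ act g p 3 = h} := ⟨_, rfl⟩
  rw [← hS] at h1 h3 hpos
  rw [← hq'] at h1 h2 h3 hq
  have hy : 0 < q 3 := hq
  have hr : ∀ x : ℝ, (x + -(round x : ℝ)) ^ 2 ≤ 1 / 4 := fun x => by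
    have := abs_le.1 (abs_sub_round x)
    nlinarith
  simp only [mk4_0, mk4_1, mk4_2, mk4_3, Units.val_one, Int.cast_one, one_mul,
    Matrix.cons_val_zero, Matrix.cons_val_one, Matrix.cons_val, Int.cast_neg] at h3
  rw [div_le_iff₀ (by positivity)] at h3
  have h4 : q 3 ^ 2 ≤ 9 / 64 := by nlinarith
  have h5 : (q 0 + -(round (q 0) : ℝ)) ^ 2 + (q 1 + -(round (q 1) : ℝ)) ^ 2 +
      (q 2 + -(round (q 2) : ℝ)) ^ 2 + q 3 ^ 2 ≤ 57 / 64 := by
    linarith [hr (q 0), hr (q 1), hr (q 2)]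
  have h6 := mul_le_mul_of_nonneg_left h5 hpos.le
  linarith

end Pool.Agent.Lib.MP_94aef8_gt.Lor
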